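import Mathlib
import Pool.Agent.MP_1ba41f_an.S2.Geo

/-! The integrable limit (mass ratio `lam` in `(0, 3/5]`), the matched quantities, the letters. -/

noncomputable section
open Set Complex

namespace Pool.Agent.MP_1ba41f_an.S2.W

/-- The ratio of the two small masses. -/
class Lam where
  l : ℝ
  pos : 0 < l
  le : l ≤ 3 / 5

variable [Lam]

def lam : ℝ := Lam.l
def sm : ℝ := √(1 - lam ^ 2)
def a0 : ℝ := 1 / (1 + lam)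
/-- a lower bound for `r` and `κ` on the resonant circles -/
def cl : ℝ := lam ^ 2 / 8

/-- the width of the parameter box -/
def dl : ℝ := lam ^ 2 / 100

theorem lam_pos : 0 < lam := Lam.pos
theorem lam_le : lam ≤ 3 / 5 := Lam.le
theorem sm_sq : sm ^ 2 = 1 - lam ^ 2 := Real.sq_sqrt (by nlinarith [lam_pos, lam_le])
theorem sm_ge : 4 / 5 ≤ sm := Real.le_sqrt_of_sq_le (by nlinarith [lam_pos, lam_le])
theorem sm_lt : sm < 1 := by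
  have := sm_sq; have := sm_ge; nlinarith [lam_pos]
theorem sm_sqC : (sm : ℂ) ^ 2 = 1 - (lam : ℂ) ^ 2 := by exact_mod_cast sm_sq
theorem lam_neC : (lam : ℂ) ≠ 0 := by exact_mod_cast lam_pos.ne'
theorem lam1_neC : (1 : ℂ) + lam ≠ 0 := by
  have : (0 : ℝ) < 1 + lam := by linarith [lam_pos]
  exact_mod_cast this.ne'
theorem a0_mem : 5 / 8 ≤ a0 ∧ a0 < 1 := by
  have := lam_pos; have := lam_le
  unfold a0
  exact ⟨by rw [le_div_iff₀ (by linarith)]; linarith, by rw [div_lt_one (by linarith)]; linarith⟩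
theorem cl_pos : 0 < cl := by have := lam_pos; unfold cl; positivity
theorem dl_pos : 0 < dl := by have := lam_pos; unfold dl; positivity
theorem dl_le : dl ≤ 1 / 100 := by have := lam_pos; have := lam_le; unfold dl; nlinarith
theorem cl_le : cl ≤ 1 / 20 := by have := lam_pos; have := lam_le; unfold cl; nlinarith

/-! ### Collision states of the limit in the chart `m = (r, Π)` -/

def bEta (κ : ℂ) (m : C2) : ℂ :=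
  (m.2 ^ 2 + κ ^ 2 + m.1 ^ 2 - 2 * (1 + lam ^ 2) * m.1) / (2 * lam * m.1)
def bD (κ : ℂ) (m : C2) : ℂ := 4 - 2 * m.1 - bEta κ m ^ 2
def bs (κ : ℂ) (m : C2) : ℂ := sq (bD κ m)
def bxi (κ : ℂ) (m : C2) : ℂ := bEta κ m + 2 * lam
def bL (κ : ℂ) (m : C2) : ℂ := bxi κ m ^ 2 + bD κ m
def bG (σ : ℝ) (κ : ℂ) (m : C2) : ℂ := 2 * (κ * bxi κ m + σ * bs κ m * m.2) / bL κ m
def bG2 (σ : ℝ) (κ : ℂ) (m : C2) : ℂ := κ - lam * bG σ κ m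
def bS (σ : ℝ) (κ : ℂ) (m : C2) : ℂ := σ * (bEta κ m * bG σ κ m - 2 * bG2 σ κ m) / bs κ m
def bX (σ : ℝ) (κ : ℂ) (m : C2) : ℂ := (2 - bG σ κ m ^ 2 - bD κ m) / 2
def bY (σ : ℝ) (κ : ℂ) (m : C2) : ℂ :=
  -σ * (bEta κ m * (bG σ κ m ^ 2 + bD κ m) - 2 * bG σ κ m * bG2 σ κ m) / (2 * bs κ m)
def bK (κ : ℂ) (m : C2) : ℂ := (m.1 - 2 * (1 - lam) + (1 - lam) * bEta κ m) / (1 + lam)
def bv3 (σ : ℝ) (κ : ℂ) (m : C2) : ℂ := (bS σ κ m + I * bG σ κ m) / m.1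
def bv3t (σ : ℝ) (κ : ℂ) (m : C2) : ℂ := (bS σ κ m - I * bG σ κ m) / m.1
def bv2 (σ : ℝ) (κ : ℂ) (m : C2) : ℂ := (bEta κ m - I * σ * bs κ m) * bv3 σ κ m / 2
def bv2t (σ : ℝ) (κ : ℂ) (m : C2) : ℂ := (bEta κ m + I * σ * bs κ m) * bv3t σ κ m / 2
def bS2 (σ : ℝ) (κ : ℂ) (m : C2) : ℂ := m.1 * (bv2 σ κ m + bv2t σ κ m) / 2

/-- The pair of conics through the collision state, in a stereographic chart `(V, U)`. -/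
def PP (σ : ℝ) (κ : ℂ) (m : C2) : C2 :=
  (bG2 σ κ m / (1 - bX σ κ m), bY σ κ m / (1 - bX σ κ m))

/-- The phase of the second body at the collision state. -/
def Fc (σ : ℝ) (κ : ℂ) (m : C2) : ℂ :=
  -((1 - I * bv2 σ κ m) ^ 2 * (bS σ κ m - I * bG σ κ m) ^ 2) / (4 * (1 + bG2 σ κ m))

/-- The collision state of the limit. -/
def collB (σ : ℝ) (κ : ℂ) (m : C2) : Az :=
  ![sq m.1, sq m.1, sq m.1 * bv2 σ κ m, sq m.1 * bv2t σ κ m,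
    sq m.1, sq m.1, sq m.1 * bv3 σ κ m, sq m.1 * bv3t σ κ m, 0]

/-- The arcs of the limit. -/
def w2b (σ : ℝ) (κ : ℂ) (m : C2) (τ : ℂ) : ℂ := sq m.1 * (cos (τ / 2) + bv2 σ κ m * sin (τ / 2))
def w3b (σ : ℝ) (κ : ℂ) (m : C2) (τ : ℂ) : ℂ := sq m.1 * (1 + bv3 σ κ m * τ / 2)
def t2b (σ : ℝ) (κ : ℂ) (m : C2) (τ : ℂ) : ℂ :=
  τ - sin τ + m.1 * sin τ + bS2 σ κ m * (1 - cos τ)
def t3b (σ : ℝ) (κ : ℂ) (m : C2) (τ : ℂ) : ℂ := m.1 * τ + bS σ κ m * τ ^ 2 / 2 + τ ^ 3 / 6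

/-! ### The inverse chart -/

def qG (κ : ℂ) (z : C2) : ℂ := (κ - qG2 z) / lam
def qD (κ : ℂ) (z : C2) : ℂ := 2 - qG κ z ^ 2 - 2 * qX z
def qs (κ : ℂ) (z : C2) : ℂ := sq (qD κ z)
def qEta (σ : ℝ) (κ : ℂ) (z : C2) : ℂ :=
  (2 * qG κ z * qG2 z - 2 * σ * qs κ z * qY z) / (qG κ z ^ 2 + qD κ z)
def QQ (σ : ℝ) (κ : ℂ) (z : C2) : C2 :=
  ((4 - qD κ z - qEta σ κ z ^ 2) / 2,
    σ * (qG κ z * ((qEta σ κ z + 2 * lam) ^ 2 + qD κ z) / 2 - κ * (qEta σ κ z + 2 * lam)) / qs κ z)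
def Fz (σ : ℝ) (κ : ℂ) (z : C2) : ℂ := Fc σ κ (QQ σ κ z)
def bet (κ : ℂ) (z : C2) : ℂ := I / 2 * log (Fz (-1) κ z / Fz 1 κ z * (lam + I * sm) ^ 2)
def gz (κ : ℂ) (z : C2) : ℂ := Real.pi - Real.arccos lam - bet κ z

/-- No denominator vanishes, chart `m`. -/
def OkM (κ : ℂ) (m : C2) : Prop :=
  m.1 ≠ 0 ∧ 0 < (bD κ m).re ∧ bL κ m ≠ 0 ∧ κ ^ 2 + m.2 ^ 2 ≠ 0 ∧ bD κ m + bK κ m ^ 2 ≠ 0 ∧
    ∀ σ : ℝ, σ = 1 ∨ σ = -1 →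
      1 - bX σ κ m ≠ 0 ∧ bG σ κ m ^ 2 + bD κ m ≠ 0 ∧ 1 + bG2 σ κ m ≠ 0

/-- No denominator vanishes, chart `z`. -/
def OkZ (κ : ℂ) (z : C2) : Prop :=
  qN z ≠ 0 ∧ 0 < (qD κ z).re ∧ qG κ z ^ 2 + qD κ z ≠ 0 ∧ OkM κ (QQ 1 κ z) ∧ OkM κ (QQ (-1) κ z) ∧
    Fz 1 κ z ≠ 0 ∧ Fz (-1) κ z ≠ 0 ∧
    Fz (-1) κ z / Fz 1 κ z * (lam + I * sm) ^ 2 ∈ slitPlane

/-! ### Letters: `0` = return with sign `-1`, `1` = return with sign `1`, `2` = transfer -/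

def gj (j : Fin 3) (κ : ℂ) (z : C2) : ℂ := if j = 2 then gz κ z else 0
def mid (j : Fin 3) (κ : ℂ) (z : C2) : ℂ := Fz (sg j) κ z * exp (I * gj j κ z)

/-! ### Matched quantities -/

/-- The six matched quantities of the letter `j`. -/
def LL (a : ℝ) (j : Fin 3) (κ : ℂ) (z : Az) : Fin 6 → ℂ :=
  ![LH a z, LK z, (UV z).1, (UV z).2, LS (mid j κ (UV z)) z, LP (mid j κ (UV z)) z]

/-- The matched quantities are regular at `z`. -/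
def OkA (j : Fin 3) (κ : ℂ) (z : Az) : Prop :=
  z 0 ≠ 0 ∧ z 1 ≠ 0 ∧ z 4 ≠ 0 ∧ z 5 ≠ 0 ∧ 0 < (kk2 z).re ∧ 0 < (kk3 z).re ∧
    0 < (1 - kk3 z * aG3 z ^ 2).re ∧ 1 - hX z ≠ 0 ∧ 1 + sq (kk2 z) * aG2 z ≠ 0 ∧ OkZ κ (UV z) ∧
    0 < (Fh z / mid j κ (UV z)).re ∧
    0 < (-(1 - kk3 z * rr3 z + I * sq (kk3 z) * aS3 z) / ee3 z).re

/-! ### Centre data with prescribed outgoing and incoming energies of the third body -/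

/-- The centre data of the limit. -/
def xiB (σ : ℝ) (κ : ℂ) (m : C2) : Xi :=
  xiOf a0 σ (a0 * κ) (-a0 / 2) m.1 (a0 * m.2) 0 0

/-- The directions of the limit, `τ = σ` outgoing and `τ = -σ` incoming. -/
def eb (σ τ : ℝ) (κ : ℂ) (m : C2) : ℂ :=
  io σ * sq ((κ - I * m.2) / sq (κ ^ 2 + m.2 ^ 2)) *
    sq ((bs κ m - I * τ * bK κ m) / sq (bD κ m + bK κ m ^ 2))

def xiN (a : ℝ) (n : ℕ) (j : Fin 3) (v : Vv) : Xi :=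
  xiOf a (sg j) (a0 * v.1.1) (hn a n + v.2.2.1) v.1.2.1 (a0 * v.1.2.2)
    (1 / nu n v.2.1.1 ^ 2) (1 / nu n v.2.1.2 ^ 2)
def TN (n : ℕ) (j : Fin 3) (v : Vv) : ℂ :=
  n * Real.pi + gj j v.1.1 (PP (sg j) v.1.1 v.1.2) + Real.pi * nu n v.2.1.1 -
    bS (sg j) v.1.1 v.1.2 + v.2.2.2

/-- The resonant circles: a compact set of real points `(κ, r, Π)`. -/
def B1 : Set (ℂ × C2) :=
  {x | ∃ s ξ sb cb : ℝ, 6 / 5 * lam ≤ s ∧ s ≤ 1 + lam ∧ cl ≤ ξ ∧ ξ ≤ 4 ∧ sb ^ 2 + cb ^ 2 = 1 ∧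
    2 * ξ * (cb + lam) = ξ ^ 2 + s ^ 2 ∧
    x = (((sm * s : ℝ) : ℂ), r2c ((4 - s ^ 2 - (ξ - 2 * lam) ^ 2) / 2, ξ * sb))}

/-- The closed domain of the arguments. -/
def DV (d R rH : ℝ) : Set Vv :=
  {v | v.1 ∈ Metric.cthickening d B1 ∧ ‖v.2.1.1‖ ≤ R ∧ ‖v.2.1.2‖ ≤ R ∧ ‖v.2.2.1‖ ≤ rH ∧
    ‖v.2.2.2‖ ≤ d}

/-! ### The two-parameter family of circles -/

def He : ℝ := √((1 + lam) ^ 2 - (6 / 5 * lam) ^ 2)
def fD (M H : ℝ) : ℝ := 2 + lam ^ 2 + 2 * lam / M - M ^ 2 - H ^ 2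
def fN (M H : ℝ) : ℝ := 4 * lam / M + M ^ 2 - H ^ 2
def fK (M H : ℝ) : ℝ := √((fN M H * (M ^ 2 - H ^ 2) + 4 - (2 - lam ^ 2 - fD M H) ^ 2) / 4)
def fq (M H x : ℝ) : ℝ := (M + H * x) ^ 2 + 2 * M * (M + H * x) + fN M H
def fc (M H : ℝ) : ℝ := (4 - fD M H - (M - lam) ^ 2) / 2
def fx (M H φ : ℝ) : ℝ × ℝ :=
  ((4 - fD M H - (M - lam + H * Real.cos φ) ^ 2) / 2,
    H * Real.sin φ * √(fq M H (Real.cos φ)) / 2)

/-- The parameter box. -/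
abbrev PB (δ : ℝ) : Type := ↥(Icc (1 - δ) 1 ×ˢ Icc (0 : ℝ) He)

end Pool.Agent.MP_1ba41f_an.S2.W
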