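import Mathlib
import Pool.Agent.MP_1ba41f_an.S2.W.Geo
import Pool.Agent.MP_1ba41f_an.S2.SpecT

/-! The top level: tori, gluing, covering, the main statement. -/

noncomputable section
open Set Complex

namespace Pool.Agent.MP_1ba41f_an.S2.W

variable [Lam]

/-- A family of half arcs close to the limit family on the largest circle. -/
structure CovFam (σ M μ δ c0 sa S : ℝ) (s1 : ℝ → ℝ) (q w w2 w3 : ℝ × ℝ → ℂ) : Prop where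
  spos : 0 < S
  ce : ContinuousOn q (univ ×ˢ Icc 0 S) ∧ ContinuousOn w (univ ×ˢ Icc 0 S)
  ca : ContinuousOn w2 (univ ×ˢ Icc 0 sa) ∧ ContinuousOn w3 (univ ×ˢ Icc 0 sa)
  join : ∀ φ, q (φ, S) = w2 (φ, 0) ^ 2 ∧ q (φ, S) + w (φ, S) ^ 2 = w3 (φ, 0) ^ 2
  enc : ∀ φ, ∃ (A R ρ : ℝ) (ep em : ℂ), 0 < A ∧ ‖ep‖ = 1 ∧ ‖em‖ = 1 ∧
    ‖ep - eb σ σ (fK M He) (r2c (fx M He φ))‖ ≤ μ ∧
    ‖em - eb σ (-σ) (fK M He) (r2c (fx M He φ))‖ ≤ μ ∧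
    (∀ s ∈ Icc 0 S, ‖q (φ, s) - (fx M He φ).1‖ ≤ μ ∧ ‖w (φ, s)‖ ≤ μ ∧
      ‖w (φ, s) - A * (ep * Real.exp s - em * Real.exp (-s))‖ ≤ μ * A * Real.sinh s) ∧
    0 < R ∧ R ≤ μ ∧ c0 ≤ ρ ∧ ρ ≤ 1 / c0 ∧ ∀ e, 0 < e → ∀ s ∈ Icc 0 sa, s ≤ s1 e →
      ‖w3 (φ, s) ^ 2 - w2 (φ, s) ^ 2 - (R + s * ρ) * ep ^ 2‖ ≤ μ * (R + s) + e * s
  near : ∀ φ, ∀ s ∈ Icc 0 sa, ∃ τ2 τ3 : ℝ, 0 ≤ τ2 ∧ 0 ≤ τ3 ∧ τ2 + τ3 = s ∧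
    ‖t2b σ (fK 1 He) (r2c (fx 1 He φ)) τ2 - t3b σ (fK 1 He) (r2c (fx 1 He φ)) τ3‖ ≤ δ ∧
    ‖w2 (φ, s) - w2b σ (fK 1 He) (r2c (fx 1 He φ)) τ2‖ ≤ δ ∧
    ‖w3 (φ, s) - w3b σ (fK 1 He) (r2c (fx 1 He φ)) τ3‖ ≤ δ

/-- COVER: the two families and their mirror images meet every complex line. -/
def CoverStmt : Prop :=
  ∀ (s1 : ℝ → ℝ) (c0 : ℝ), (∀ e, 0 < e → 0 < s1 e) → 0 < c0 →
    ∃ sa δ : ℝ, 0 < sa ∧ 0 < δ ∧ ∀ Mb : ℝ, Mb < 1 → ∃ μ : ℝ, 0 < μ ∧ ∀ M ∈ Icc (1 - δ) Mb,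
      ∀ (S : ℝ) (q w w2 w3 q' w' w2' w3' : ℝ × ℝ → ℂ),
        CovFam 1 M μ δ c0 sa S s1 q w w2 w3 → CovFam (-1) M μ δ c0 sa S s1 q' w' w2' w3' →
        ∀ x : ℂ × ℂ, x ≠ 0 → Hits sa S q w w2 w3 x ∨ Hits sa S q w w2 w3 (cj x) ∨
          Hits sa S q' w' w2' w3' x ∨ Hits sa S q' w' w2' w3' (cj x)

/-- TORUS: the family of invariant circles with a counterterm, in terms of half arcs. -/
def TorusStmt : Prop :=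
  ∃ (s1 : ℝ → ℝ) (c0 : ℝ), (∀ e, 0 < e → 0 < s1 e) ∧ 0 < c0 ∧ ∀ sa δ1 : ℝ, 0 < sa → 0 < δ1 →
    ∃ δ : ℝ, 0 < δ ∧ δ ≤ δ1 ∧ δ ≤ dl ∧ ∃ (om : PB δ → ℝ) (chi : PB δ → ℝ → ℝ),
      Continuous om ∧ (∀ p, om p = -Real.pi ↔ p.1.1 = 1) ∧ (∀ p, Continuous (chi p)) ∧
      ∀ w g η μ : ℝ, DioW w g → 0 < η → 0 < μ → ∃ da e0 : ℝ, 0 < da ∧ 0 < e0 ∧
        ∀ a e : ℝ, |a - a0| < da → 0 < e → e < e0 →
          ∃ (η' S : ℝ) (K : Set (Xi × ℂ)) (enc : Xi × ℂ → En) (arc : Xi × ℂ → Az)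
            (ξ : PB δ → Fin 3 → ℝ → Xi) (T : PB δ → Fin 3 → ℝ → ℝ) (sig : PB δ → ℝ),
            0 < η' ∧ η' < 1 ∧ Half a e η' K S enc arc ∧ Continuous sig ∧ (∀ p, |sig p| ≤ η) ∧
            (∀ j, Continuous (fun x : PB δ × ℝ => ξ x.1 j x.2) ∧
              Continuous fun x : PB δ × ℝ => T x.1 j x.2) ∧
            ∀ p, Fam3 η' K arc (ξ p) (T p) ∧ (om p = w + 2 * sig p → Match w arc (ξ p) (T p)) ∧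
              (p.1.2 = 0 → ∀ j θ, ξ p j θ = ξ p j 0 ∧ T p j θ = T p j 0) ∧
              (∀ j, j ≠ 1 → ∀ φ,
                ‖ξ p j (chi p φ) 4 -
                  eb (sg j) (sg j) (fK p.1.1 p.1.2) (r2c (fx p.1.1 p.1.2 φ))‖ ≤ μ ∧
                ‖ξ p j (chi p φ) 5 -
                  eb (sg j) (-sg j) (fK p.1.1 p.1.2) (r2c (fx p.1.1 p.1.2 φ))‖ ≤ μ) ∧
              (∀ j θ, sa ≤ T p j θ) ∧
              (p.1.2 = He → ∀ j, j ≠ 1 → CovFam (sg j) p.1.1 μ δ1 c0 sa S s1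
                (fun x => enc (ξ p j (chi p x.1), x.2) 0) (fun x => enc (ξ p j (chi p x.1), x.2) 2)
                (fun x => arc (ξ p j (chi p x.1), x.2) 0) fun x => arc (ξ p j (chi p x.1), x.2) 4)

/-- The main statement. -/
def MainStmt : Prop :=
  ∃ δ : ℝ, 0 < δ ∧ ∀ m : Fin 3 → ℝ, 0 < m 0 → 0 < m 1 → |m 2 / m 1 - lam| < δ → m 1 < δ * m 0 →
    ∀ A : ℝ, 0 < A → A ≤ Real.pi → Att m A

end Pool.Agent.MP_1ba41f_an.S2.W
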