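import Mathlib
import Pool.Agent.MP_1ba41f_an.S2.W.SpecT
import Pool.Agent.MP_1ba41f_an.S2.SpecK

/-! Statements on the integrable limit, the long arcs and the letters. -/

noncomputable section
open Set Complex
open scoped ComplexConjugate

namespace Pool.Agent.MP_1ba41f_an.S2.W

variable [Lam]

/-- The arguments of `xiOf` in `xiN` and in `xiB`. -/
def yN (a : ℝ) (n : ℕ) (v : Vv) : Fin 6 → ℂ :=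
  ![a0 * v.1.1, hn a n + v.2.2.1, v.1.2.1, a0 * v.1.2.2,
    1 / nu n v.2.1.1 ^ 2, 1 / nu n v.2.1.2 ^ 2]
def yB (x : ℂ × C2) : Fin 6 → ℂ := ![a0 * x.1, -a0 / 2, x.2.1, a0 * x.2.2, 0, 0]

/-- ALGB: the collision state of the limit. -/
def AlgBStmt : Prop :=
  ∀ (σ : ℝ) (κ : ℂ) (m : C2), σ = 1 ∨ σ = -1 → OkM κ m →
    (kh a0 (yB (κ, m)) 0 = bK κ m ∧
      e2 a0 (yB (κ, m)) * n2 (yB (κ, m)) = bD κ m + bK κ m ^ 2 ∧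
      wh a0 (yB (κ, m)) 0 = bs κ m ∧
      (OkX a0 (yB (κ, m)) → coll a0 (xiB σ κ m) = collB σ κ m)) ∧
    (rr2 (collB σ κ m) = m.1 ∧ rr3 (collB σ κ m) = m.1 ∧
      kk2 (collB σ κ m) = 1 ∧ kk3 (collB σ κ m) = 0 ∧ aG2 (collB σ κ m) = bG2 σ κ m ∧
      aG3 (collB σ κ m) = bG σ κ m ∧ aS2 (collB σ κ m) = bS2 σ κ m ∧
      aS3 (collB σ κ m) = bS σ κ m ∧ ee3 (collB σ κ m) = 1 ∧ hX (collB σ κ m) = bX σ κ m ∧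
      hY (collB σ κ m) = bY σ κ m ∧ UV (collB σ κ m) = PP σ κ m ∧ Fh (collB σ κ m) = Fc σ κ m) ∧
    bX σ κ m ^ 2 + bY σ κ m ^ 2 + bG2 σ κ m ^ 2 = 1 ∧
    bS σ κ m ^ 2 + bG σ κ m ^ 2 = 2 * m.1 ∧
    4 * m.2 ^ 2 = 2 * m.1 * bL κ m - 4 * κ ^ 2 ∧
    bK κ m = -((bEta κ m - (1 - lam)) ^ 2 + bD κ m - (1 + lam) ^ 2) / (2 * (1 + lam))

/-- ALGQ: the two charts are inverse to each other. -/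
def AlgQStmt : Prop :=
  ∀ (σ : ℝ) (κ : ℂ), σ = 1 ∨ σ = -1 →
    (∀ m : C2, OkM κ m → qN (PP σ κ m) ≠ 0 ∧ qX (PP σ κ m) = bX σ κ m ∧
      qY (PP σ κ m) = bY σ κ m ∧ qG2 (PP σ κ m) = bG2 σ κ m ∧ qG κ (PP σ κ m) = bG σ κ m ∧
      qD κ (PP σ κ m) = bD κ m ∧ qEta σ κ (PP σ κ m) = bEta κ m ∧ QQ σ κ (PP σ κ m) = m) ∧
    ∀ z : C2, qN z ≠ 0 → 0 < (qD κ z).re → qG κ z ^ 2 + qD κ z ≠ 0 → (QQ σ κ z).1 ≠ 0 →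
      (qEta σ κ z + 2 * lam) ^ 2 + qD κ z ≠ 0 →
      bEta κ (QQ σ κ z) = qEta σ κ z ∧ bD κ (QQ σ κ z) = qD κ z ∧ bG σ κ (QQ σ κ z) = qG κ z ∧
        PP σ κ (QQ σ κ z) = z

/-- ALGM: the reflection and the real structure. -/
def AlgMStmt : Prop :=
  (∀ (σ : ℝ) (κ : ℂ) (m : C2), PP σ κ (Gm m) = Gm (PP (-σ) κ m) ∧
    QQ σ κ (Gm m) = Gm (QQ (-σ) κ m) ∧ qD κ (Gm m) = qD κ m ∧ (OkM κ m → OkM κ (Gm m))) ∧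
  (∀ (σ : ℝ) (κ : ℂ) (m : C2), κ.im = 0 → RealC2 m → OkM κ m →
    RealC2 (PP σ κ m) ∧ (bS σ κ m).im = 0 ∧ (bS2 σ κ m).im = 0 ∧ (bG σ κ m).im = 0 ∧
      (bs κ m).im = 0 ∧ 0 < (bs κ m).re ∧ bv2t σ κ m = conj (bv2 σ κ m) ∧
      bv3t σ κ m = conj (bv3 σ κ m)) ∧
  (∀ (κ : ℂ) (z : C2), κ.im = 0 → RealC2 z → OkZ κ z →
    (∀ σ : ℝ, RealC2 (QQ σ κ z)) ∧ (gz κ z).im = 0 ∧ (∀ j, ‖mid j κ z‖ = 1) ∧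
      mid 1 κ (Gm z) = conj (mid 0 κ z) ∧ mid 2 κ (Gm z) = conj (mid 2 κ z)) ∧
  ∀ (σ : ℝ) (x : ℂ × C2), σ = 1 ∨ σ = -1 → x.1.im = 0 → RealC2 x.2 → OkM x.1 x.2 →
    OkX a0 (yB x) → xiB σ x.1 x.2 4 = eb σ σ x.1 x.2 ∧ xiB σ x.1 x.2 5 = eb σ (-σ) x.1 x.2

/-- ANA: the regular sets are open and the formulas are holomorphic on them. -/
def AnaStmt : Prop :=
  (IsOpen {x : ℂ × C2 | OkM x.1 x.2} ∧ ∀ σ : ℝ, σ = 1 ∨ σ = -1 →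
    DifferentiableOn ℂ (fun x : ℂ × C2 => PP σ x.1 x.2) {x | OkM x.1 x.2} ∧
    DifferentiableOn ℂ (fun x : ℂ × C2 => (bS σ x.1 x.2, bG σ x.1 x.2, bS2 σ x.1 x.2,
      bv2 σ x.1 x.2, bv3 σ x.1 x.2, Fc σ x.1 x.2, bD x.1 x.2)) {x | OkM x.1 x.2}) ∧
  (IsOpen {x : ℂ × C2 | OkZ x.1 x.2} ∧ (∀ σ : ℝ,
    DifferentiableOn ℂ (fun x : ℂ × C2 => QQ σ x.1 x.2) {x | OkZ x.1 x.2}) ∧ ∀ j,
    DifferentiableOn ℂ (fun x : ℂ × C2 => (gj j x.1 x.2, mid j x.1 x.2)) {x | OkZ x.1 x.2}) ∧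
  (IsOpen {x : ℝ × (Fin 6 → ℂ) | OkX x.1 x.2} ∧ ∀ σ : ℝ, σ = 1 ∨ σ = -1 →
    ContinuousOn (fun x : ℝ × (Fin 6 → ℂ) => (xiY x.1 σ x.2, coll x.1 (xiY x.1 σ x.2), e2 x.1 x.2))
      {x | OkX x.1 x.2} ∧ ∀ a, DifferentiableOn ℂ (xiY a σ) {y | OkX a y}) ∧
  ∀ j, IsOpen {x : ℂ × Az | OkA j x.1 x.2} ∧
    ContinuousOn (fun x : ℝ × ℂ × Az => LL x.1 j x.2.1 x.2.2) {x | OkA j x.2.1 x.2.2} ∧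
    ∀ a, DifferentiableOn ℂ (fun x : ℂ × Az => LL a j x.1 x.2) {x | OkA j x.1 x.2}

/-- BASE: the resonant circles lie in the regular sets; closed formulas on them. -/
def BaseStmt : Prop :=
  IsCompact B1 ∧ (∀ x ∈ B1, (x.1, Gm x.2) ∈ B1 ∧ x.1.im = 0 ∧ RealC2 x.2 ∧ cl ≤ x.1.re ∧
    cl ≤ x.2.1.re ∧ OkM x.1 x.2 ∧ OkX a0 (yB x) ∧ OkZ x.1 (PP 1 x.1 x.2) ∧
    OkZ x.1 (PP (-1) x.1 x.2)) ∧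
  ∀ s ξ sb cb : ℝ, 6 / 5 * lam ≤ s → s ≤ 1 + lam → cl ≤ ξ → ξ ≤ 4 → sb ^ 2 + cb ^ 2 = 1 →
    2 * ξ * (cb + lam) = ξ ^ 2 + s ^ 2 → ∀ (κ : ℂ) (m : C2), κ = (sm * s : ℝ) →
    m = r2c ((4 - s ^ 2 - (ξ - 2 * lam) ^ 2) / 2, ξ * sb) →
    lam / 5 ≤ cb ∧ bEta κ m = (ξ - 2 * lam : ℝ) ∧ bD κ m = (s ^ 2 : ℝ) ∧ bs κ m = s ∧
      bG 1 κ m = (s * ((sm + sb) / (lam + cb)) : ℝ) ∧
      bS 1 κ m = (ξ * ((sm + sb) / (lam + cb)) - 2 * sm : ℝ) ∧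
      (s ^ 2 / ξ ∈ Icc cl 4 ∧
        QQ (-1) κ (PP 1 κ m) = r2c ((4 - s ^ 2 - (s ^ 2 / ξ - 2 * lam) ^ 2) / 2, -(s ^ 2 / ξ * sb))) ∧
      bS (-1) κ (QQ (-1) κ (PP 1 κ m)) - bS 1 κ m = (2 * (sm - sb) : ℝ) ∧
      bS2 (-1) κ (QQ (-1) κ (PP 1 κ m)) - bS2 1 κ m = (-(2 * lam * sm) - 2 * sb * cb : ℝ) ∧
      Fz (-1) κ (PP 1 κ m) / Fz 1 κ (PP 1 κ m) * (lam + I * sm) ^ 2 = (cb - I * sb) ^ 2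

/-- EARLY: in the limit the small bodies do not meet again, the cut is not a collision, and the
arcs with `Π = 0` do not meet the big body. -/
def EarlyStmt : Prop :=
  ∀ x ∈ B1, (∀ σ : ℝ, σ = 1 ∨ σ = -1 → ∀ τ2 τ3 : ℝ, t2b σ x.1 x.2 τ2 = t3b σ x.1 x.2 τ3 →
      w2b σ x.1 x.2 τ2 ^ 2 = w3b σ x.1 x.2 τ3 ^ 2 → τ2 = 0 ∧ τ3 = 0) ∧
    w2b 1 x.1 x.2 (gz x.1 (PP 1 x.1 x.2)) ≠ 0 ∧
    (x.2.2 = 0 → ∀ σ : ℝ, σ = 1 ∨ σ = -1 → bG σ x.1 x.2 ≠ 0 ∧ bG2 σ x.1 x.2 ≠ 0)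

/-- FAM0: elementary facts on the family of circles. -/
def Fam0Stmt : Prop :=
  ContinuousOn (fun x : ℝ × ℝ × ℝ => (fK x.1 x.2.1, fx x.1 x.2.1 x.2.2))
    (Icc (1 - dl) 1 ×ˢ Icc 0 He ×ˢ univ) ∧ 0 < He ∧ He ^ 2 = (1 + lam) ^ 2 - (6 / 5 * lam) ^ 2 ∧
  ∀ M ∈ Icc (1 - dl) 1, ∀ H ∈ Icc 0 He,
    0 < fK M H ∧ 4 * fK M H ^ 2 = fN M H * (M ^ 2 - H ^ 2) + 4 - (2 - lam ^ 2 - fD M H) ^ 2 ∧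
    lam ^ 2 ≤ fD M H ∧ (∀ x ∈ Icc (-1 : ℝ) 1, lam ^ 2 ≤ fq M H x) ∧ ∀ φ,
      0 < (fx M H φ).1 ∧ bEta (fK M H) (r2c (fx M H φ)) = (M - lam + H * Real.cos φ : ℝ) ∧
      bD (fK M H) (r2c (fx M H φ)) = fD M H ∧ OkM (fK M H) (r2c (fx M H φ)) ∧
      (M = 1 → (((fK M H : ℝ) : ℂ), r2c (fx M H φ)) ∈ B1)

/-- FAM: the circles in the angle in which the return map is a rotation. -/
def FamStmt : Prop :=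
  ∀ d : ℝ, 0 < d → ∃ δ : ℝ, 0 < δ ∧ δ ≤ d ∧ δ ≤ dl ∧
    ∃ (s0 d0 : ℝ) (om : PB δ → ℝ) (V N : PB δ → ℂ → C2) (chi : PB δ → ℝ → ℝ),
      LBData s0 d0 (fun p : PB δ => p.1.2) (fun p => fc p.1.1 p.1.2) om V N
        (fun p => PP 1 (fK p.1.1 p.1.2)) ∧
      (∀ p, ∀ m ∈ nbh d0 (fun p : PB δ => p.1.2) (fun p => fc p.1.1 p.1.2) V p,
        (((fK p.1.1 p.1.2 : ℝ) : ℂ), m) ∈ Metric.thickening d B1) ∧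
      (∀ p, om p = -Real.pi ↔ p.1.1 = 1) ∧ (∀ p, Continuous (chi p)) ∧
      ∀ p φ, cur (fun p : PB δ => p.1.2) (fun p => fc p.1.1 p.1.2) V p (chi p φ) =
          r2c (fx p.1.1 p.1.2 φ) ∧
        dist (((fK p.1.1 p.1.2 : ℝ) : ℂ), r2c (fx p.1.1 p.1.2 φ))
          (((fK 1 p.1.2 : ℝ) : ℂ), r2c (fx 1 p.1.2 φ)) < d

/-- INJ: the matched quantities are real and determine a real state up to rotation. -/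
def InjStmt : Prop :=
  ∀ (a : ℝ) (κ : ℂ), 0 < a → a < 1 → κ.im = 0 →
    (∀ j z, RealZ z → OkA j κ z → ∀ i, (LL a j κ z i).im = 0) ∧
    ∀ (j j' : Fin 3) (z z' : Az), (j = 0 ∧ j' = 1) ∨ (j = 2 ∧ j' = 2) → RealZ z → RealZ z' →
      OkA j κ z → OkA j' κ z' → ang a (physA z) = ang a (physA z') → ang a (physA z) ≠ 0 →
      LL a j' κ z' = mirL (LL a j κ z) → Rot (mir (physA z')) (physA z)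

/-- The real part of what is known on an arc `g` of real length `T` from the data `v`. -/
def RealArc (j : Fin 3) (s1 : ℝ → ℝ) (c0 c1 sa e1 d μ T : ℝ) (v : Vv) (x : Xi) (g : ℝ → Az) :
    Prop :=
  sa ≤ T ∧ 2 ≤ (g 1 8).re ∧
  (‖v.1.2.2‖ ≤ c1 → ∀ u ∈ Icc (0 : ℝ) 1, c1 ≤ ‖g u 0‖ ∧ c1 ≤ ‖g u 4‖) ∧
  (∃ ρ : ℝ, c0 ≤ ρ ∧ ρ ≤ 1 / c0 ∧ ∀ e, 0 < e → ∀ u ∈ Icc (0 : ℝ) 1, u * T ≤ s1 e →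
    ‖dd (g u) - (u * T * ρ : ℝ) * x 4 ^ 2‖ ≤ e * (u * T)) ∧
  (∀ x0 ∈ B1, dist v.1 x0 ≤ d → ∀ u ∈ Icc (0 : ℝ) 1, u * T ≤ sa →
    ∃ τ2 τ3 : ℝ, 0 ≤ τ2 ∧ 0 ≤ τ3 ∧ τ2 + τ3 = u * T ∧
      ‖t2b (sg j) x0.1 x0.2 τ2 - t3b (sg j) x0.1 x0.2 τ3‖ ≤ e1 ∧
      ‖g u 0 - w2b (sg j) x0.1 x0.2 τ2‖ ≤ e1 ∧ ‖g u 4 - w3b (sg j) x0.1 x0.2 τ3‖ ≤ e1) ∧
  ‖x 4 - eb (sg j) (sg j) v.1.1 v.1.2‖ ≤ μ ∧ ‖x 5 - eb (sg j) (-sg j) v.1.1 v.1.2‖ ≤ μ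

/-- KEP: the unperturbed long arcs. -/
def KepStmt : Prop :=
  ∃ (s1 : ℝ → ℝ) (c0 c1 : ℝ), (∀ e, 0 < e → 0 < s1 e) ∧ 0 < c0 ∧ 0 < c1 ∧
    ∀ sa e1 : ℝ, 0 < sa → 0 < e1 → ∃ d B : ℝ, 0 < d ∧ 0 < B ∧ ∀ R μ : ℝ, 0 < R → 0 < μ →
      ∃ (n : ℕ) (rH da : ℝ), 2 * R < n ∧ 0 < rH ∧ 0 < da ∧
        ∀ a : ℝ, |a - a0| ≤ da → ∀ j, ∀ v ∈ DV d R rH,
          OkX a (yN a n v) ∧ OkM v.1.1 v.1.2 ∧ OkZ v.1.1 (PP (sg j) v.1.1 v.1.2) ∧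
          cl / 2 ≤ v.1.2.1.re ∧ cl / 2 ≤ v.1.1.re ∧
          Adm (a, xiN a n j v, TN n j v) ∧ ∀ g, BaseArc a (xiN a n j v) (TN n j v) g →
            (OkA j v.1.1 (g 1) ∧ LH a (g 1) = hn a n + v.2.2.1 ∧ LK (g 1) = n + v.2.1.1 ∧
              ‖UV (g 1) - PP (sg j) v.1.1 v.1.2‖ ≤ μ ∧ ‖LL a j v.1.1 (g 1) 4 - v.2.2.2‖ ≤ μ ∧
              ‖LL a j v.1.1 (g 1) 5 - Real.pi * v.2.1.1‖ ≤ B) ∧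
            (RealV v → ∃ T : ℝ, TN n j v = T ∧
              RealArc j s1 c0 c1 sa e1 d μ T v (xiN a n j v) g)

/-- The end point of the letter `j`. -/
def endN (a : ℝ) (n : ℕ) (arc : Xi × ℂ → Az) (j : Fin 3) (v : Vv) : Az :=
  arc (xiN a n j v, TN n j v)

/-- What the letters give, for fixed masses. -/
structure OutData (s1 : ℝ → ℝ) (c0 c1 sa e1 d B R μ rH a e η S : ℝ) (n : ℕ) (K : Set (Xi × ℂ))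
    (enc : Xi × ℂ → En) (arc : Xi × ℂ → Az) : Prop where
  pos : 0 < a ∧ a < 1 ∧ 0 < η ∧ η ≤ μ ∧ η ≤ e1 ∧ η ≤ cl / 8 ∧ η < c1
  big : 2 * R < n
  half : Half a e η K S enc arc
  hol : ∀ j, ∃ W : Set Vv, IsOpen W ∧ DV d R rH ⊆ W ∧ DifferentiableOn ℂ (xiN a n j) W ∧
    DifferentiableOn ℂ (TN n j) W ∧
    DifferentiableOn ℂ (fun v => LL a j v.1.1 (endN a n arc j v)) W
  est : ∀ j, ∀ v ∈ DV d R rH, (xiN a n j v, TN n j v) ∈ K ∧ OkX a (yN a n v) ∧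
    OkM v.1.1 v.1.2 ∧ OkZ v.1.1 (PP (sg j) v.1.1 v.1.2) ∧ cl / 2 ≤ v.1.2.1.re ∧ cl / 2 ≤ v.1.1.re ∧
    OkA j v.1.1 (endN a n arc j v) ∧
    ‖LL a j v.1.1 (endN a n arc j v) 0 - hn a n - v.2.2.1‖ ≤ μ * rH ∧
    ‖LL a j v.1.1 (endN a n arc j v) 1 - n - v.2.1.1‖ ≤ μ ∧
    ‖UV (endN a n arc j v) - PP (sg j) v.1.1 v.1.2‖ ≤ μ ∧
    ‖LL a j v.1.1 (endN a n arc j v) 4 - v.2.2.2‖ ≤ μ ∧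
    ‖LL a j v.1.1 (endN a n arc j v) 5 - Real.pi * v.2.1.1‖ ≤ B ∧
    (RealV v → ∃ (T : ℝ) (g : ℝ → Az), TN n j v = T ∧ BaseArc a (xiN a n j v) T g ∧
      RealArc j s1 c0 c1 sa e1 d μ T v (xiN a n j v) g)

/-- OUT: the letters of the true problem. -/
def OutStmt : Prop :=
  ∃ (s1 : ℝ → ℝ) (c0 c1 : ℝ), (∀ e, 0 < e → 0 < s1 e) ∧ 0 < c0 ∧ 0 < c1 ∧
    ∀ sa e1 : ℝ, 0 < sa → 0 < e1 → ∃ d B : ℝ, 0 < d ∧ 0 < B ∧ ∀ R μ : ℝ, 0 < R → 0 < μ →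
      ∃ (n : ℕ) (rH da e0 : ℝ), 0 < rH ∧ 0 < da ∧ 0 < e0 ∧
        ∀ a e : ℝ, |a - a0| < da → 0 < e → e < e0 →
          ∃ (η S : ℝ) (K : Set (Xi × ℂ)) (enc : Xi × ℂ → En) (arc : Xi × ℂ → Az),
            OutData s1 c0 c1 sa e1 d B R μ rH a e η S n K enc arc

end Pool.Agent.MP_1ba41f_an.S2.W
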