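import Mathlib
import Pool.Agent.MP_1ba41f_an.S2.W.SpecK

/-! The collision state of the integrable limit. -/

noncomputable section
open Set Complex

namespace Pool.Agent.MP_1ba41f_an.S2.W

namespace AlgB

theorem sq_mul (z : ℂ) : sq z * sq z = z := by
  have h := Complex.cpow_ofNat_inv_pow z 2
  rw [sq, one_div, ← pow_two]
  exact h

theorem sq_one : sq 1 = 1 := by rw [sq, one_cpow]

/-- The relations between the quantities of the chart; `s` is the signed root. -/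
structure Rel (l r P κ η s G S K : ℂ) : Prop where
  r0 : r ≠ 0
  n0 : κ ^ 2 + P ^ 2 ≠ 0
  hκ : κ = (G * (η + 2 * l) - S * s) / 2
  hP : P = (G * s + S * (η + 2 * l)) / 2
  hr : S ^ 2 + G ^ 2 = 2 * r
  hT : s ^ 2 = 4 - 2 * r - η ^ 2
  hK : (1 + l) * K = r - 2 * (1 - l) + (1 - l) * η

theorem Rel.norm {l r P κ η s G S K : ℂ} (h : Rel l r P κ η s G S K) :
    κ ^ 2 + P ^ 2 = r * ((η + 2 * l) ^ 2 + s ^ 2) / 2 := by
  rw [h.hκ, h.hP]
  linear_combination (((η + 2 * l) ^ 2 + s ^ 2) / 4) * h.hr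

theorem Rel.keyU {l a r P κ η s G S K J : ℂ} (h : Rel l r P κ η s G S K) (ha : a * (1 + l) = 1)
    (hJ : J ^ 2 = -1) :
    -((a * κ - J * (a * P)) * (s - J * K)) / ((a * κ) ^ 2 + (a * P) ^ 2) =
      ((1 + l) * (S + J * G) - (P + J * κ)) / r := by
  have h1 : (κ + J * P) * (S + J * G) = J * r * (η + 2 * l + J * s) := by
    rw [h.hκ, h.hP]
    linear_combination (J * (η + 2 * l + J * s) / 2) * h.hr +
      (G * S * (η + 2 * l) / 2 - S ^ 2 * s / 2) * hJ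
  have h2 : (κ + J * P) * (P + J * κ) = J * (r * ((η + 2 * l) ^ 2 + s ^ 2) / 2) := by
    rw [← h.norm]
    linear_combination (P * κ) * hJ
  have h3 : -(1 + l) * (s - J * K) * r =
      (κ + J * P) * ((1 + l) * (S + J * G) - (P + J * κ)) := by
    linear_combination (J * r) * h.hK - (1 + l) * h1 + h2 + (-(1 + l) * r * s) * hJ +
      (J * r / 2) * h.hT
  have h4 : (a * κ) ^ 2 + (a * P) ^ 2 ≠ 0 := by
    have h5 : (a * κ) ^ 2 + (a * P) ^ 2 = a ^ 2 * (κ ^ 2 + P ^ 2) := by ring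
    rw [h5]
    exact mul_ne_zero (pow_ne_zero _ (left_ne_zero_of_mul_eq_one ha)) h.n0
  rw [div_eq_div_iff h4 h.r0]
  linear_combination (a ^ 2 * (κ - J * P)) * h3 + (a * (κ - J * P) * (s - J * K) * r) * ha -
    (a ^ 2 * P ^ 2 * ((1 + l) * (S + J * G) - (P + J * κ))) * hJ

theorem Rel.keyV {l r P κ η s G S K J : ℂ} (h : Rel l r P κ η s G S K) (hJ : J ^ 2 = -1) :
    P + J * κ - l * (S + J * G) = (η - J * s) * (S + J * G) / 2 := by
  rw [h.hκ, h.hP]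
  linear_combination (s * G / 2) * hJ

variable [Lam]

theorem a0_mul : (a0 : ℂ) * (1 + lam) = 1 := by
  rw [a0]
  push_cast
  exact one_div_mul_cancel lam1_neC

theorem a0_eq : (a0 : ℂ) = 1 / (1 + lam) := by
  rw [a0]
  push_cast
  rfl

variable {σ : ℝ} {κ : ℂ} {m : C2}

omit [Lam] in
theorem sig_sq (hσ : σ = 1 ∨ σ = -1) : (σ : ℂ) ^ 2 = 1 := by
  rcases hσ with rfl | rfl <;> simp

theorem bs_sq (κ : ℂ) (m : C2) : bs κ m ^ 2 = bD κ m := by rw [pow_two, bs, sq_mul]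

theorem bs_ne (h : OkM κ m) : bs κ m ≠ 0 := fun h0 => by
  have h1 := bs_sq κ m
  rw [h0] at h1
  have h2 := h.2.1
  rw [← h1] at h2
  simp at h2

theorem eta_eq (h : OkM κ m) :
    2 * lam * m.1 * bEta κ m = m.2 ^ 2 + κ ^ 2 + m.1 ^ 2 - 2 * (1 + lam ^ 2) * m.1 := by
  rw [bEta, mul_div_cancel₀]
  exact mul_ne_zero (mul_ne_zero two_ne_zero lam_neC) h.1

theorem norm_eq (h : OkM κ m) : 4 * m.2 ^ 2 = 2 * m.1 * bL κ m - 4 * κ ^ 2 := by
  rw [bL, bxi, bD]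
  linear_combination (-4) * eta_eq h

theorem rel (hσ : σ = 1 ∨ σ = -1) (h : OkM κ m) :
    Rel lam m.1 m.2 κ (bEta κ m) (σ * bs κ m) (bG σ κ m) (bS σ κ m) (bK κ m) := by
  have h1 := sig_sq hσ
  have h2 := bs_sq κ m
  have hs := bs_ne h
  have hL : bL κ m = (bEta κ m + 2 * lam) ^ 2 + (σ * bs κ m) ^ 2 := by
    rw [bL, bxi, mul_pow, h1, h2, one_mul]
  have hG : bG σ κ m * bL κ m = 2 * (κ * (bEta κ m + 2 * lam) + σ * bs κ m * m.2) := by
    rw [bG, div_mul_cancel₀ _ h.2.2.1, bxi]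
  have hS : bS σ κ m * bs κ m = σ * (bEta κ m * bG σ κ m - 2 * (κ - lam * bG σ κ m)) := by
    rw [bS, div_mul_cancel₀ _ hs, bG2]
  have hκ : κ = (bG σ κ m * (bEta κ m + 2 * lam) - bS σ κ m * (σ * bs κ m)) / 2 := by
    linear_combination (σ / 2 : ℂ) * hS +
      ((bEta κ m * bG σ κ m - 2 * (κ - lam * bG σ κ m)) / 2) * h1
  have hs' : (σ : ℂ) * bs κ m ≠ 0 := by
    refine mul_ne_zero (fun h0 => ?_) hs
    rw [h0] at h1
    norm_num at h1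
  have hP : m.2 = (bG σ κ m * (σ * bs κ m) + bS σ κ m * (bEta κ m + 2 * lam)) / 2 := by
    apply mul_left_cancel₀ hs'
    rw [hL] at hG
    linear_combination (-1 / 2 : ℂ) * hG - (bEta κ m + 2 * lam) * hκ
  refine ⟨h.1, h.2.2.2.1, hκ, hP, ?_, ?_, by rw [bK, mul_div_cancel₀ _ lam1_neC]⟩
  · apply mul_left_cancel₀ h.2.2.1
    have h3 := norm_eq h
    have h4 : 4 * (κ ^ 2 + m.2 ^ 2) = bL κ m * (bS σ κ m ^ 2 + bG σ κ m ^ 2) := by
      rw [hL]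
      linear_combination
        (4 * (κ + (bG σ κ m * (bEta κ m + 2 * lam) - bS σ κ m * (σ * bs κ m)) / 2)) * hκ +
        (4 * (m.2 + (bG σ κ m * (σ * bs κ m) + bS σ κ m * (bEta κ m + 2 * lam)) / 2)) * hP
    linear_combination h3 - h4
  · rw [mul_pow, h1, h2, one_mul, bD]

theorem e2_eq (h : OkM κ m) :
    e2 a0 (yB (κ, m)) = (4 - m.1 - 2 * bEta κ m) / m.1 := by
  have h1 := eta_eq h
  have h0 := h.1
  have h2 : yy (yB (κ, m)) * yt (yB (κ, m)) =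
      (a0 : ℂ) ^ 2 * (2 * lam * bEta κ m - m.1 + 2 * (1 + lam ^ 2)) / m.1 := by
    change (a0 * m.2 + I * (a0 * κ)) / m.1 * ((a0 * m.2 - I * (a0 * κ)) / m.1) = _
    rw [div_mul_div_comm, div_eq_div_iff (mul_ne_zero h0 h0) h0]
    linear_combination (-((a0 : ℂ) ^ 2) * m.1) * h1 - ((a0 : ℂ) ^ 2 * κ ^ 2 * m.1) * I_sq
  have hl := lam_neC
  have hl1 := lam1_neC
  have h3 : (a0 : ℂ) * (1 - a0) = lam / (1 + lam) ^ 2 := by
    rw [a0_eq]
    field_simp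
    ring
  rw [e2, h2, h3]
  change 2 * (-a0 / 2 - _ / 2 + 1 / m.1) / _ = _
  rw [a0_eq]
  field_simp
  ring

theorem kh_eq (h : OkM κ m) : kh a0 (yB (κ, m)) 0 = bK κ m := by
  have h0 := h.1
  rw [kh, e2_eq h, bK]
  have hl1 := lam1_neC
  change m.1 * (((-2 * (-a0 / 2) - _ * 0) / _ - 0) / 2 - _) = _
  rw [a0_eq]
  field_simp
  ring

theorem en_eq (h : OkM κ m) :
    e2 a0 (yB (κ, m)) * n2 (yB (κ, m)) = bD κ m + bK κ m ^ 2 := by
  have h0 := h.1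
  have h2 : n2 (yB (κ, m)) = m.1 * ((a0 : ℂ) ^ 2 * (2 * lam * bEta κ m - m.1 + 2 * (1 + lam ^ 2))) := by
    change (a0 * κ) ^ 2 + (a0 * m.2) ^ 2 = _
    linear_combination (-((a0 : ℂ) ^ 2)) * eta_eq h
  have hl1 := lam1_neC
  rw [e2_eq h, h2, ← mul_assoc, div_mul_cancel₀ _ h0, bD, bK, a0_eq]
  field_simp
  ring

theorem wh_eq (h : OkM κ m) : wh a0 (yB (κ, m)) 0 = bs κ m := by
  rw [wh, en_eq h, kh_eq h, add_sub_cancel_right, bs]

theorem coll_eq (hA : AlgAStmt) (hσ : σ = 1 ∨ σ = -1) (h : OkM κ m)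
    (hX : OkX a0 (yB (κ, m))) : coll a0 (xiB σ κ m) = collB σ κ m := by
  have hR := rel hσ h
  have h0 := h.1
  have h1 := sig_sq hσ
  obtain ⟨⟨-, -, -, hu, ht, -⟩, -⟩ := hA a0 σ (yB (κ, m)) hσ hX
  have hx : xiY a0 σ (yB (κ, m)) = xiB σ κ m := rfl
  have h4 : yB (κ, m) 4 = 0 := rfl
  rw [hx, h4, wh_eq h, kh_eq h] at hu ht
  have hu' : uu a0 (xiB σ κ m) =
      ((1 + lam) * (bS σ κ m + I * bG σ κ m) - (m.2 + I * κ)) / m.1 := by
    rw [hu, ← hR.keyU a0_mul I_sq]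
    change -σ * (a0 * κ - I * (a0 * m.2)) * _ / ((a0 * κ) ^ 2 + (a0 * m.2) ^ 2) = _
    congr 1
    linear_combination ((a0 * κ - I * (a0 * m.2)) * I * bK κ m) * h1
  have ht' : ut a0 (xiB σ κ m) =
      ((1 + lam) * (bS σ κ m + -I * bG σ κ m) - (m.2 + -I * κ)) / m.1 := by
    rw [ht, ← hR.keyU (J := -I) a0_mul (by rw [neg_sq, I_sq])]
    change -σ * (a0 * κ + I * (a0 * m.2)) * _ / ((a0 * κ) ^ 2 + (a0 * m.2) ^ 2) = _
    congr 1
    linear_combination (-(a0 * κ + I * (a0 * m.2)) * I * bK κ m) * h1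
  have hy : yy (xiB σ κ m) = (a0 * m.2 + I * (a0 * κ)) / m.1 := rfl
  have hyt : yt (xiB σ κ m) = (a0 * m.2 - I * (a0 * κ)) / m.1 := rfl
  have h2 : xiB σ κ m 2 = m.1 := rfl
  have hV := hR.keyV I_sq
  have hVt := hR.keyV (J := -I) (by rw [neg_sq, I_sq])
  have a2 : yy (xiB σ κ m) - (1 - (a0 : ℂ)) * uu a0 (xiB σ κ m) = bv2 σ κ m := by
    rw [hy, hu', bv2, bv3]
    linear_combination (1 / m.1) * hV + ((bS σ κ m + I * bG σ κ m) / m.1) * a0_mul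
  have a2t : yt (xiB σ κ m) - (1 - (a0 : ℂ)) * ut a0 (xiB σ κ m) = bv2t σ κ m := by
    rw [hyt, ht', bv2t, bv3t]
    linear_combination (1 / m.1) * hVt + ((bS σ κ m - I * bG σ κ m) / m.1) * a0_mul
  have a3 : yy (xiB σ κ m) + (a0 : ℂ) * uu a0 (xiB σ κ m) = bv3 σ κ m := by
    rw [hy, hu', bv3]
    linear_combination ((bS σ κ m + I * bG σ κ m) / m.1) * a0_mul
  have a3t : yt (xiB σ κ m) + (a0 : ℂ) * ut a0 (xiB σ κ m) = bv3t σ κ m := by
    rw [hyt, ht', bv3t]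
    linear_combination ((bS σ κ m - I * bG σ κ m) / m.1) * a0_mul
  rw [coll, collB, a2, a2t, a3, a3t, h2]

end AlgB

variable [Lam]

open AlgB in
theorem algB (hA : AlgAStmt) : AlgBStmt := by
  intro σ κ m hσ h
  have hR := rel hσ h
  have h0 := h.1
  have h1 := sig_sq hσ
  have hs := bs_ne h
  have hq := sq_mul m.1
  have hD : bD κ m = (σ * bs κ m) ^ 2 := by rw [mul_pow, h1, bs_sq, one_mul]
  have hr := hR.hr
  have hT := hR.hT
  have hG2 : bG2 σ κ m = (bEta κ m * bG σ κ m - σ * bs κ m * bS σ κ m) / 2 := by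
    rw [bG2]
    linear_combination hR.hκ
  have hbX : bX σ κ m =
      (bEta κ m ^ 2 - (σ * bs κ m) ^ 2 + bS σ κ m ^ 2 - bG σ κ m ^ 2) / 4 := by
    rw [bX, hD]
    linear_combination (-1 / 4 : ℂ) * hr - (1 / 4 : ℂ) * hT
  have hbY : bY σ κ m = -(bEta κ m * (σ * bs κ m) + bS σ κ m * bG σ κ m) / 2 := by
    rw [bY, hD, hG2, div_eq_iff (mul_ne_zero two_ne_zero hs)]
    linear_combination (-(bEta κ m * σ * bs κ m ^ 2) - bG σ κ m * bs κ m * bS σ κ m) * h1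
  have v3 : m.1 * bv3 σ κ m = bS σ κ m + I * bG σ κ m := by rw [bv3, mul_div_cancel₀ _ h0]
  have v3t : m.1 * bv3t σ κ m = bS σ κ m - I * bG σ κ m := by rw [bv3t, mul_div_cancel₀ _ h0]
  have v33 : m.1 * (bv3 σ κ m * bv3t σ κ m) = 2 := by
    apply mul_left_cancel₀ h0
    linear_combination (m.1 * bv3t σ κ m) * v3 + (bS σ κ m + I * bG σ κ m) * v3t + hr -
      bG σ κ m ^ 2 * I_sq
  have r2 : rr2 (collB σ κ m) = m.1 := hq
  have r3 : rr3 (collB σ κ m) = m.1 := hq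
  have k2 : kk2 (collB σ κ m) = 1 := by
    rw [kk2, r2, div_eq_one_iff_eq h0]
    change 2 - sq m.1 * bv2 σ κ m * (sq m.1 * bv2t σ κ m) = m.1
    rw [bv2, bv2t]
    linear_combination
      (-((bEta κ m - I * σ * bs κ m) * (bEta κ m + I * σ * bs κ m) *
        (bv3 σ κ m * bv3t σ κ m) / 4)) * hq -
      ((bEta κ m - I * σ * bs κ m) * (bEta κ m + I * σ * bs κ m) / 4) * v33 - (1 / 2 : ℂ) * hT +
      ((σ * bs κ m) ^ 2 / 2) * I_sq
  have k3 : kk3 (collB σ κ m) = 0 := by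
    rw [kk3, div_eq_zero_iff]
    left
    change 2 - sq m.1 * bv3 σ κ m * (sq m.1 * bv3t σ κ m) = 0
    linear_combination (-(bv3 σ κ m * bv3t σ κ m)) * hq - v33
  have hI : (2 * I : ℂ) ≠ 0 := mul_ne_zero two_ne_zero I_ne_zero
  have g2 : aG2 (collB σ κ m) = bG2 σ κ m := by
    rw [aG2, div_eq_iff hI, hG2]
    change sq m.1 * (sq m.1 * bv2 σ κ m) - sq m.1 * (sq m.1 * bv2t σ κ m) = _
    rw [bv2, bv2t]
    linear_combination
      ((bEta κ m - I * σ * bs κ m) * bv3 σ κ m / 2 -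
        (bEta κ m + I * σ * bs κ m) * bv3t σ κ m / 2) * hq +
      ((bEta κ m - I * σ * bs κ m) / 2) * v3 - ((bEta κ m + I * σ * bs κ m) / 2) * v3t
  have g3 : aG3 (collB σ κ m) = bG σ κ m := by
    rw [aG3, div_eq_iff hI]
    change sq m.1 * (sq m.1 * bv3 σ κ m) - sq m.1 * (sq m.1 * bv3t σ κ m) = _
    linear_combination (bv3 σ κ m - bv3t σ κ m) * hq + v3 - v3t
  have s2 : aS2 (collB σ κ m) = bS2 σ κ m := by
    rw [aS2, bS2]
    change (sq m.1 * (sq m.1 * bv2 σ κ m) + sq m.1 * (sq m.1 * bv2t σ κ m)) / 2 = _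
    linear_combination ((bv2 σ κ m + bv2t σ κ m) / 2) * hq
  have s3 : aS3 (collB σ κ m) = bS σ κ m := by
    rw [aS3]
    change (sq m.1 * (sq m.1 * bv3 σ κ m) + sq m.1 * (sq m.1 * bv3t σ κ m)) / 2 = _
    linear_combination ((bv3 σ κ m + bv3t σ κ m) / 2) * hq + (1 / 2 : ℂ) * v3 + (1 / 2 : ℂ) * v3t
  have e3 : ee3 (collB σ κ m) = 1 := by rw [ee3, k3, zero_mul, sub_zero, sq_one]
  have A2 : aA2 (collB σ κ m) = -(m.1 * (bv2 σ κ m ^ 2 + 1)) / 2 := by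
    rw [aA2, k2]
    change -((sq m.1 * bv2 σ κ m) ^ 2 + 1 * sq m.1 ^ 2) / 2 = _
    linear_combination (-(bv2 σ κ m ^ 2 + 1) / 2) * hq
  have A2t : aA2t (collB σ κ m) = -(m.1 * (bv2t σ κ m ^ 2 + 1)) / 2 := by
    rw [aA2t, k2]
    change -((sq m.1 * bv2t σ κ m) ^ 2 + 1 * sq m.1 ^ 2) / 2 = _
    linear_combination (-(bv2t σ κ m ^ 2 + 1) / 2) * hq
  have A3 : aA3 (collB σ κ m) = -(m.1 * bv3 σ κ m ^ 2) / 2 := by
    rw [aA3, k3]
    change -((sq m.1 * bv3 σ κ m) ^ 2 + 0 * sq m.1 ^ 2) / 2 = _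
    linear_combination (-(bv3 σ κ m ^ 2) / 2) * hq
  have A3t : aA3t (collB σ κ m) = -(m.1 * bv3t σ κ m ^ 2) / 2 := by
    rw [aA3t, k3]
    change -((sq m.1 * bv3t σ κ m) ^ 2 + 0 * sq m.1 ^ 2) / 2 = _
    linear_combination (-(bv3t σ κ m ^ 2) / 2) * hq
  have w1 : m.1 * (bv2 σ κ m * bv3t σ κ m) = bEta κ m - I * σ * bs κ m := by
    rw [bv2]
    linear_combination ((bEta κ m - I * σ * bs κ m) / 2) * v33
  have w2 : m.1 * (bv2t σ κ m * bv3 σ κ m) = bEta κ m + I * σ * bs κ m := by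
    rw [bv2t]
    linear_combination ((bEta κ m + I * σ * bs κ m) / 2) * v33
  have p1 : aA2 (collB σ κ m) * aA3t (collB σ κ m) =
      ((bEta κ m - I * σ * bs κ m) ^ 2 + (bS σ κ m - I * bG σ κ m) ^ 2) / 4 := by
    rw [A2, A3t, ← w1, ← v3t]
    ring
  have p2 : aA2t (collB σ κ m) * aA3 (collB σ κ m) =
      ((bEta κ m + I * σ * bs κ m) ^ 2 + (bS σ κ m + I * bG σ κ m) ^ 2) / 4 := by
    rw [A2t, A3, ← w2, ← v3]
    ring
  have x1 : hX (collB σ κ m) = bX σ κ m := by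
    rw [hX, p1, p2, e3, hbX]
    linear_combination (((σ * bs κ m) ^ 2 + bG σ κ m ^ 2) / 4) * I_sq
  have y1 : hY (collB σ κ m) = bY σ κ m := by
    rw [hY, p1, p2, e3, mul_one, div_eq_iff hI, hbY]
    ring
  refine ⟨⟨kh_eq h, en_eq h, wh_eq h, coll_eq hA hσ h⟩,
    ⟨r2, r3, k2, k3, g2, g3, s2, s3, e3, x1, y1, ?_, ?_⟩, ?_, hr, norm_eq h, ?_⟩
  · rw [UV, PP, k2, sq_one, one_mul, g2, x1, y1]
  · rw [Fh, Fc, k2, sq_one, one_mul, one_mul, g2, e3, div_one, A3t, ← v3t]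
    have h2 : 1 + bG2 σ κ m ≠ 0 := (h.2.2.2.2.2 σ hσ).2.2
    have h3 : (collB σ κ m 0 - I * collB σ κ m 2) ^ 2 = m.1 * (1 - I * bv2 σ κ m) ^ 2 := by
      change (sq m.1 - I * (sq m.1 * bv2 σ κ m)) ^ 2 = _
      linear_combination (1 - I * bv2 σ κ m) ^ 2 * hq
    rw [h3]
    field_simp
    ring
  · rw [hbX, hbY, hG2]
    linear_combination
      ((bEta κ m ^ 2 + (σ * bs κ m) ^ 2 + bS σ κ m ^ 2 + bG σ κ m ^ 2 + 4) / 16) * (hr + hT)
  · have hl1 := lam1_neC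
    rw [bK, bD]
    field_simp
    ring

end Pool.Agent.MP_1ba41f_an.S2.W
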