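import Pool.Agent.MP_1ba41f_an.S2.W.SpecK

/-! Row ALGQ: the two charts are inverse to each other. -/

noncomputable section
open Set Complex

namespace Pool.Agent.MP_1ba41f_an.S2.W

namespace AlgQ

theorem sq_sq (z : ℂ) : S2.sq z ^ 2 = z := by
  unfold S2.sq
  rw [one_div]
  exact_mod_cast Complex.cpow_nat_inv_pow z (n := 2) (by norm_num)

theorem ne_of_re {z : ℂ} (h : 0 < z.re) : z ≠ 0 := fun e => by simp [e] at h

theorem sq_ne {z : ℂ} (h : z ≠ 0) : S2.sq z ≠ 0 := fun e => h (by rw [← sq_sq z, e]; simp)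

theorem sig_sq {σ : ℝ} (h : σ = 1 ∨ σ = -1) : (σ : ℂ) ^ 2 = 1 := by
  rcases h with rfl | rfl <;> simp

variable [Lam]

theorem part1 (hB : AlgBStmt) (σ : ℝ) (κ : ℂ) (hσ : σ = 1 ∨ σ = -1) (m : C2) (h : OkM κ m) :
    qN (PP σ κ m) ≠ 0 ∧ qX (PP σ κ m) = bX σ κ m ∧
      qY (PP σ κ m) = bY σ κ m ∧ qG2 (PP σ κ m) = bG2 σ κ m ∧ qG κ (PP σ κ m) = bG σ κ m ∧
      qD κ (PP σ κ m) = bD κ m ∧ qEta σ κ (PP σ κ m) = bEta κ m ∧ QQ σ κ (PP σ κ m) = m := by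
  have hS := (hB σ κ m hσ h).2.2.1
  obtain ⟨-, hD, hL, -, -, h6⟩ := h
  obtain ⟨hX, hE, -⟩ := h6 σ hσ
  have hs : bs κ m ≠ 0 := sq_ne (ne_of_re hD)
  have h2 := sig_sq hσ
  have hN : qN (PP σ κ m) = 2 / (1 - bX σ κ m) := by
    simp only [qN, PP]
    field_simp
    linear_combination hS
  have e1 : qX (PP σ κ m) = bX σ κ m := by
    rw [qX, hN]
    field_simp
    ring
  have e2 : qY (PP σ κ m) = bY σ κ m := by
    rw [qY, hN]
    simp only [PP]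
    field_simp
  have e3 : qG2 (PP σ κ m) = bG2 σ κ m := by
    rw [qG2, hN]
    simp only [PP]
    field_simp
  have e4 : qG κ (PP σ κ m) = bG σ κ m := by
    rw [qG, e3, bG2, div_eq_iff lam_neC]
    ring
  have e5 : qD κ (PP σ κ m) = bD κ m := by
    rw [qD, e4, e1, bX]
    ring
  have e6 : qs κ (PP σ κ m) = bs κ m := by rw [qs, e5, bs]
  have e7 : qEta σ κ (PP σ κ m) = bEta κ m := by
    rw [qEta, e4, e3, e6, e2, e5, div_eq_iff hE, bY]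
    field_simp
    linear_combination (bEta κ m * (bG σ κ m ^ 2 + bD κ m) - 2 * bG σ κ m * bG2 σ κ m) * h2
  refine ⟨hN ▸ div_ne_zero two_ne_zero hX, e1, e2, e3, e4, e5, e7, Prod.ext ?_ ?_⟩
  · simp only [QQ]
    rw [e5, e7, bD]
    ring
  · simp only [QQ]
    rw [e5, e7, e4, e6, div_eq_iff hs]
    have e8 : bG σ κ m * bL κ m = 2 * (κ * bxi κ m + σ * bs κ m * m.2) := by
      rw [bG, div_mul_cancel₀ _ hL]
    simp only [bL, bxi] at e8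
    linear_combination (σ / 2 : ℂ) * e8 + bs κ m * m.2 * h2

theorem part2 (σ : ℝ) (κ : ℂ) (hσ : σ = 1 ∨ σ = -1) (z : C2) (hN : qN z ≠ 0)
    (hD : 0 < (qD κ z).re) (hE : qG κ z ^ 2 + qD κ z ≠ 0) (hr : (QQ σ κ z).1 ≠ 0)
    (hL : (qEta σ κ z + 2 * lam) ^ 2 + qD κ z ≠ 0) :
    bEta κ (QQ σ κ z) = qEta σ κ z ∧ bD κ (QQ σ κ z) = qD κ z ∧ bG σ κ (QQ σ κ z) = qG κ z ∧
      PP σ κ (QQ σ κ z) = z := by
  have h2 := sig_sq hσ
  have hD0 := ne_of_re hD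
  have hs : qs κ z ≠ 0 := sq_ne hD0
  have hs2 : qs κ z ^ 2 = qD κ z := sq_sq _
  have hS : qX z ^ 2 + qY z ^ 2 + qG2 z ^ 2 = 1 := by
    simp only [qX, qY, qG2]
    field_simp
    simp only [qN]
    ring
  have a1 : qEta σ κ z * (qG κ z ^ 2 + qD κ z) =
      2 * qG κ z * qG2 z - 2 * σ * qs κ z * qY z := by rw [qEta, div_mul_cancel₀ _ hE]
  have a2 : κ = qG2 z + lam * qG κ z := by
    rw [qG, mul_div_cancel₀ _ lam_neC]
    ring
  have a3 : qX z = 1 - (qG κ z ^ 2 + qD κ z) / 2 := by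
    rw [qD]
    ring
  have a4 : 2 * (QQ σ κ z).1 = 4 - qD κ z - qEta σ κ z ^ 2 := by
    simp only [QQ]
    ring
  have a5 : (QQ σ κ z).2 * qs κ z =
      σ * (qG κ z * ((qEta σ κ z + 2 * lam) ^ 2 + qD κ z) / 2 - κ * (qEta σ κ z + 2 * lam)) := by
    simp only [QQ]
    rw [div_mul_cancel₀ _ hs]
  have a6 : 1 - qX z = 2 / qN z := by
    rw [qX]
    field_simp
    ring
  have b1 : (qEta σ κ z ^ 2 + qD κ z) * (qG κ z ^ 2 + qD κ z) - 4 * qEta σ κ z * qG κ z * qG2 z +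
      4 * qG2 z ^ 2 - 4 * qD κ z = 0 := by
    refine mul_left_cancel₀ hE ?_
    rw [a3] at hS
    linear_combination (qEta σ κ z * (qG κ z ^ 2 + qD κ z) - 2 * qG κ z * qG2 z -
      2 * σ * qs κ z * qY z) * a1 + 4 * qs κ z ^ 2 * qY z ^ 2 * h2 + 4 * qY z ^ 2 * hs2 +
      4 * qD κ z * hS
  have b2 : 4 * (QQ σ κ z).2 ^ 2 =
      2 * (QQ σ κ z).1 * ((qEta σ κ z + 2 * lam) ^ 2 + qD κ z) - 4 * κ ^ 2 := by
    refine mul_left_cancel₀ hD0 ?_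
    have c1 : (QQ σ κ z).2 ^ 2 * qD κ z =
        (qG κ z * ((qEta σ κ z + 2 * lam) ^ 2 + qD κ z) / 2 - κ * (qEta σ κ z + 2 * lam)) ^ 2 := by
      rw [← hs2, ← mul_pow, a5, mul_pow, h2, one_mul, hs2]
    rw [a4]
    generalize qG κ z = G at a2 b1 c1 ⊢
    generalize qEta σ κ z = η at b1 c1 ⊢
    generalize qD κ z = D at b1 c1 ⊢
    generalize (QQ σ κ z).2 = P at c1 ⊢
    subst a2
    linear_combination 4 * c1 + ((η + 2 * lam) ^ 2 + D) * b1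
  have e1 : bEta κ (QQ σ κ z) = qEta σ κ z := by
    rw [bEta, div_eq_iff (mul_ne_zero (mul_ne_zero two_ne_zero lam_neC) hr)]
    linear_combination (1 / 4 : ℂ) * b2 + (QQ σ κ z).1 / 2 * a4
  have e2 : bD κ (QQ σ κ z) = qD κ z := by
    rw [bD, e1]
    linear_combination -a4
  have e3 : bs κ (QQ σ κ z) = qs κ z := by rw [bs, e2, qs]
  have e4 : bG σ κ (QQ σ κ z) = qG κ z := by
    rw [bG, bL, bxi, e1, e2, e3, div_eq_iff hL]
    linear_combination 2 * σ * a5 + (qG κ z * ((qEta σ κ z + 2 * lam) ^ 2 + qD κ z) -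
      2 * κ * (qEta σ κ z + 2 * lam)) * h2
  have e5 : bG2 σ κ (QQ σ κ z) = qG2 z := by
    rw [bG2, e4]
    linear_combination a2
  have e6 : bX σ κ (QQ σ κ z) = qX z := by
    rw [bX, e4, e2, a3]
    ring
  have e7 : bY σ κ (QQ σ κ z) = qY z := by
    rw [bY, e1, e2, e3, e4, e5, div_eq_iff (mul_ne_zero two_ne_zero hs)]
    linear_combination -σ * a1 + 2 * qs κ z * qY z * h2
  refine ⟨e1, e2, e4, Prod.ext ?_ ?_⟩
  · simp only [PP]
    rw [e5, e6, a6, qG2]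
    field_simp
  · simp only [PP]
    rw [e7, e6, a6, qY]
    field_simp

end AlgQ

variable [Lam]

theorem algQ (hB : AlgBStmt) : AlgQStmt := fun σ κ hσ =>
  ⟨AlgQ.part1 hB σ κ hσ, AlgQ.part2 σ κ hσ⟩

end Pool.Agent.MP_1ba41f_an.S2.W
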