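import Pool.Agent.MP_1ba41f_an.S2.W.SpecK

/-! Regular sets are open and the formulas are holomorphic: the charts `m` and `z`. -/

noncomputable section
open Set Complex Filter Topology

namespace Pool.Agent.MP_1ba41f_an.S2.W

namespace Ana

variable {E : Type} [NormedAddCommGroup E] [NormedSpace ℂ E] {x : E}

theorem sq_ne {z : ℂ} (h : z ≠ 0) : sq z ≠ 0 := fun e => h ((cpow_eq_zero_iff _ _).1 e).1

theorem ne_of_re {z : ℂ} (h : 0 < z.re) : z ≠ 0 := fun e => by simp [e] at h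

@[fun_prop]
theorem d_sq {f : E → ℂ} (hf : DifferentiableAt ℂ f x) (h : 0 < (f x).re) :
    DifferentiableAt ℂ (fun y => sq (f y)) x := hf.cpow_const (Or.inl h)

@[fun_prop]
theorem d_log {f : E → ℂ} (hf : DifferentiableAt ℂ f x) (h : f x ∈ slitPlane) :
    DifferentiableAt ℂ (fun y => log (f y)) x := hf.clog h

@[fun_prop]
theorem d_div {f g : E → ℂ} (hf : DifferentiableAt ℂ f x) (hg : DifferentiableAt ℂ g x)
    (h : g x ≠ 0) : DifferentiableAt ℂ (fun y => f y / g y) x := by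
  simp only [div_eq_mul_inv]
  exact hf.mul (hg.inv h)

theorem d_mul {f g : E → ℂ} (hf : DifferentiableAt ℂ f x) (hg : DifferentiableAt ℂ g x) :
    DifferentiableAt ℂ (fun y => f y * g y) x := hf.mul hg

theorem ev_ne {f : E → ℂ} (hf : DifferentiableAt ℂ f x) (h : f x ≠ 0) : ∀ᶠ y in 𝓝 x, f y ≠ 0 :=
  hf.continuousAt.eventually_ne h

theorem ev_re {f : E → ℂ} (hf : DifferentiableAt ℂ f x) (h : 0 < (f x).re) :
    ∀ᶠ y in 𝓝 x, 0 < (f y).re :=
  continuousAt_const.eventually_lt (continuous_re.continuousAt.comp hf.continuousAt) h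

section Q

variable {z : E → C2}

@[fun_prop]
theorem d_qN (hz : DifferentiableAt ℂ z x) : DifferentiableAt ℂ (fun y => qN (z y)) x := by
  unfold qN
  fun_prop

@[fun_prop]
theorem d_qX (hz : DifferentiableAt ℂ z x) (h : qN (z x) ≠ 0) :
    DifferentiableAt ℂ (fun y => qX (z y)) x := by
  unfold qX
  fun_prop (disch := assumption)

@[fun_prop]
theorem d_qG2 (hz : DifferentiableAt ℂ z x) (h : qN (z x) ≠ 0) :
    DifferentiableAt ℂ (fun y => qG2 (z y)) x := by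
  unfold qG2
  fun_prop (disch := assumption)

@[fun_prop]
theorem d_qY (hz : DifferentiableAt ℂ z x) (h : qN (z x) ≠ 0) :
    DifferentiableAt ℂ (fun y => qY (z y)) x := by
  unfold qY
  fun_prop (disch := assumption)

end Q

theorem sg_cases (j : Fin 3) : sg j = 1 ∨ sg j = -1 := by
  unfold sg
  split_ifs
  exacts [Or.inr rfl, Or.inl rfl]

variable [Lam]

section M

variable {κ : E → ℂ} {m : E → C2} {σ : ℝ}

@[fun_prop]
theorem d_bEta (hκ : DifferentiableAt ℂ κ x) (hm : DifferentiableAt ℂ m x) (h : OkM (κ x) (m x)) :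
    DifferentiableAt ℂ (fun y => bEta (κ y) (m y)) x := by
  have := mul_ne_zero (mul_ne_zero (two_ne_zero (α := ℂ)) lam_neC) h.1
  unfold bEta
  fun_prop (disch := assumption)

@[fun_prop]
theorem d_bD (hκ : DifferentiableAt ℂ κ x) (hm : DifferentiableAt ℂ m x) (h : OkM (κ x) (m x)) :
    DifferentiableAt ℂ (fun y => bD (κ y) (m y)) x := by
  unfold bD
  fun_prop (disch := assumption)

@[fun_prop]
theorem d_bs (hκ : DifferentiableAt ℂ κ x) (hm : DifferentiableAt ℂ m x) (h : OkM (κ x) (m x)) :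
    DifferentiableAt ℂ (fun y => bs (κ y) (m y)) x := d_sq (d_bD hκ hm h) h.2.1

@[fun_prop]
theorem d_bxi (hκ : DifferentiableAt ℂ κ x) (hm : DifferentiableAt ℂ m x) (h : OkM (κ x) (m x)) :
    DifferentiableAt ℂ (fun y => bxi (κ y) (m y)) x := (d_bEta hκ hm h).add_const _

@[fun_prop]
theorem d_bL (hκ : DifferentiableAt ℂ κ x) (hm : DifferentiableAt ℂ m x) (h : OkM (κ x) (m x)) :
    DifferentiableAt ℂ (fun y => bL (κ y) (m y)) x := by
  unfold bL
  fun_prop (disch := assumption)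

@[fun_prop]
theorem d_bK (hκ : DifferentiableAt ℂ κ x) (hm : DifferentiableAt ℂ m x) (h : OkM (κ x) (m x)) :
    DifferentiableAt ℂ (fun y => bK (κ y) (m y)) x := by
  have := lam1_neC
  unfold bK
  fun_prop (disch := assumption)

@[fun_prop]
theorem d_bG (hκ : DifferentiableAt ℂ κ x) (hm : DifferentiableAt ℂ m x) (h : OkM (κ x) (m x)) :
    DifferentiableAt ℂ (fun y => bG σ (κ y) (m y)) x := by
  have := h.2.2.1
  unfold bG
  fun_prop (disch := assumption)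

@[fun_prop]
theorem d_bG2 (hκ : DifferentiableAt ℂ κ x) (hm : DifferentiableAt ℂ m x) (h : OkM (κ x) (m x)) :
    DifferentiableAt ℂ (fun y => bG2 σ (κ y) (m y)) x := by
  unfold bG2
  fun_prop (disch := assumption)

theorem bs_ne {k : ℂ} {n : C2} (h : OkM k n) : bs k n ≠ 0 := sq_ne (ne_of_re h.2.1)

@[fun_prop]
theorem d_bS (hκ : DifferentiableAt ℂ κ x) (hm : DifferentiableAt ℂ m x) (h : OkM (κ x) (m x)) :
    DifferentiableAt ℂ (fun y => bS σ (κ y) (m y)) x := by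
  have := bs_ne h
  unfold bS
  fun_prop (disch := assumption)

@[fun_prop]
theorem d_bX (hκ : DifferentiableAt ℂ κ x) (hm : DifferentiableAt ℂ m x) (h : OkM (κ x) (m x)) :
    DifferentiableAt ℂ (fun y => bX σ (κ y) (m y)) x := by
  unfold bX
  fun_prop (disch := assumption)

@[fun_prop]
theorem d_bY (hκ : DifferentiableAt ℂ κ x) (hm : DifferentiableAt ℂ m x) (h : OkM (κ x) (m x)) :
    DifferentiableAt ℂ (fun y => bY σ (κ y) (m y)) x := by
  have := mul_ne_zero (two_ne_zero (α := ℂ)) (bs_ne h)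
  unfold bY
  fun_prop (disch := assumption)

@[fun_prop]
theorem d_bv3 (hκ : DifferentiableAt ℂ κ x) (hm : DifferentiableAt ℂ m x) (h : OkM (κ x) (m x)) :
    DifferentiableAt ℂ (fun y => bv3 σ (κ y) (m y)) x := by
  have := h.1
  unfold bv3
  fun_prop (disch := assumption)

@[fun_prop]
theorem d_bv3t (hκ : DifferentiableAt ℂ κ x) (hm : DifferentiableAt ℂ m x) (h : OkM (κ x) (m x)) :
    DifferentiableAt ℂ (fun y => bv3t σ (κ y) (m y)) x := by
  have := h.1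
  unfold bv3t
  fun_prop (disch := assumption)

@[fun_prop]
theorem d_bv2 (hκ : DifferentiableAt ℂ κ x) (hm : DifferentiableAt ℂ m x) (h : OkM (κ x) (m x)) :
    DifferentiableAt ℂ (fun y => bv2 σ (κ y) (m y)) x := by
  unfold bv2
  fun_prop (disch := assumption)

@[fun_prop]
theorem d_bv2t (hκ : DifferentiableAt ℂ κ x) (hm : DifferentiableAt ℂ m x) (h : OkM (κ x) (m x)) :
    DifferentiableAt ℂ (fun y => bv2t σ (κ y) (m y)) x := by
  unfold bv2t
  fun_prop (disch := assumption)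

@[fun_prop]
theorem d_bS2 (hκ : DifferentiableAt ℂ κ x) (hm : DifferentiableAt ℂ m x) (h : OkM (κ x) (m x)) :
    DifferentiableAt ℂ (fun y => bS2 σ (κ y) (m y)) x := by
  unfold bS2
  fun_prop (disch := assumption)

theorem d_PP (hσ : σ = 1 ∨ σ = -1) (hκ : DifferentiableAt ℂ κ x) (hm : DifferentiableAt ℂ m x)
    (h : OkM (κ x) (m x)) : DifferentiableAt ℂ (fun y => PP σ (κ y) (m y)) x := by
  have := (h.2.2.2.2.2 σ hσ).1
  unfold PP
  fun_prop (disch := assumption)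

theorem d_Fc (hσ : σ = 1 ∨ σ = -1) (hκ : DifferentiableAt ℂ κ x) (hm : DifferentiableAt ℂ m x)
    (h : OkM (κ x) (m x)) : DifferentiableAt ℂ (fun y => Fc σ (κ y) (m y)) x := by
  have := mul_ne_zero (by norm_num : (4 : ℂ) ≠ 0) (h.2.2.2.2.2 σ hσ).2.2
  unfold Fc
  fun_prop (disch := assumption)

theorem ev_OkM (hκ : DifferentiableAt ℂ κ x) (hm : DifferentiableAt ℂ m x) (h : OkM (κ x) (m x)) :
    ∀ᶠ y in 𝓝 x, OkM (κ y) (m y) := by
  have h6 : ∀ s : ℝ, s = 1 ∨ s = -1 → ∀ᶠ y in 𝓝 x, 1 - bX s (κ y) (m y) ≠ 0 ∧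
      bG s (κ y) (m y) ^ 2 + bD (κ y) (m y) ≠ 0 ∧ 1 + bG2 s (κ y) (m y) ≠ 0 := fun s hs =>
    (ev_ne ((d_bX hκ hm h).const_sub 1) (h.2.2.2.2.2 s hs).1).and
      ((ev_ne (((d_bG hκ hm h).pow 2).add (d_bD hκ hm h)) (h.2.2.2.2.2 s hs).2.1).and
        (ev_ne ((d_bG2 hκ hm h).const_add 1) (h.2.2.2.2.2 s hs).2.2))
  filter_upwards [ev_ne hm.fst h.1, ev_re (d_bD hκ hm h) h.2.1, ev_ne (d_bL hκ hm h) h.2.2.1,
    ev_ne ((hκ.pow 2).add (hm.snd.pow 2)) h.2.2.2.1,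
    ev_ne ((d_bD hκ hm h).add ((d_bK hκ hm h).pow 2)) h.2.2.2.2.1, h6 1 (Or.inl rfl),
    h6 (-1) (Or.inr rfl)] with y a1 a2 a3 a4 a5 a6 a7
  refine ⟨a1, a2, a3, a4, a5, fun s hs => ?_⟩
  rcases hs with rfl | rfl
  exacts [a6, a7]

end M

section Z

variable {κ : E → ℂ} {z : E → C2} {σ : ℝ}

@[fun_prop]
theorem d_qG (hκ : DifferentiableAt ℂ κ x) (hz : DifferentiableAt ℂ z x) (h : qN (z x) ≠ 0) :
    DifferentiableAt ℂ (fun y => qG (κ y) (z y)) x := by
  have := lam_neC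
  unfold qG
  fun_prop (disch := assumption)

@[fun_prop]
theorem d_qD (hκ : DifferentiableAt ℂ κ x) (hz : DifferentiableAt ℂ z x) (h : qN (z x) ≠ 0) :
    DifferentiableAt ℂ (fun y => qD (κ y) (z y)) x := by
  unfold qD
  fun_prop (disch := assumption)

@[fun_prop]
theorem d_qs (hκ : DifferentiableAt ℂ κ x) (hz : DifferentiableAt ℂ z x) (h : OkZ (κ x) (z x)) :
    DifferentiableAt ℂ (fun y => qs (κ y) (z y)) x := d_sq (d_qD hκ hz h.1) h.2.1

@[fun_prop]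
theorem d_qEta (hκ : DifferentiableAt ℂ κ x) (hz : DifferentiableAt ℂ z x) (h : OkZ (κ x) (z x)) :
    DifferentiableAt ℂ (fun y => qEta σ (κ y) (z y)) x := by
  have := h.1
  have := h.2.2.1
  unfold qEta
  fun_prop (disch := assumption)

theorem d_QQ (hκ : DifferentiableAt ℂ κ x) (hz : DifferentiableAt ℂ z x) (h : OkZ (κ x) (z x)) :
    DifferentiableAt ℂ (fun y => QQ σ (κ y) (z y)) x := by
  have := h.1
  have : qs (κ x) (z x) ≠ 0 := sq_ne (ne_of_re h.2.1)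
  unfold QQ
  fun_prop (disch := assumption)

theorem d_Fz (hσ : σ = 1 ∨ σ = -1) (hκ : DifferentiableAt ℂ κ x) (hz : DifferentiableAt ℂ z x)
    (h : OkZ (κ x) (z x)) : DifferentiableAt ℂ (fun y => Fz σ (κ y) (z y)) x := by
  refine d_Fc hσ hκ (d_QQ hκ hz h) ?_
  rcases hσ with rfl | rfl
  exacts [h.2.2.2.1, h.2.2.2.2.1]

theorem d_rat (hκ : DifferentiableAt ℂ κ x) (hz : DifferentiableAt ℂ z x) (h : OkZ (κ x) (z x)) :
    DifferentiableAt ℂ
      (fun y => Fz (-1) (κ y) (z y) / Fz 1 (κ y) (z y) * (lam + I * sm) ^ 2) x :=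
  d_mul (d_div (d_Fz (Or.inr rfl) hκ hz h) (d_Fz (Or.inl rfl) hκ hz h) h.2.2.2.2.2.1)
    (differentiableAt_const _)

theorem d_gz (hκ : DifferentiableAt ℂ κ x) (hz : DifferentiableAt ℂ z x) (h : OkZ (κ x) (z x)) :
    DifferentiableAt ℂ (fun y => gz (κ y) (z y)) x :=
  (((d_rat hκ hz h).clog h.2.2.2.2.2.2.2).const_mul _).const_sub _

theorem d_gj (j : Fin 3) (hκ : DifferentiableAt ℂ κ x) (hz : DifferentiableAt ℂ z x)
    (h : OkZ (κ x) (z x)) : DifferentiableAt ℂ (fun y => gj j (κ y) (z y)) x := by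
  unfold gj
  split_ifs
  · exact d_gz hκ hz h
  · exact differentiableAt_const _

theorem d_mid (j : Fin 3) (hκ : DifferentiableAt ℂ κ x) (hz : DifferentiableAt ℂ z x)
    (h : OkZ (κ x) (z x)) : DifferentiableAt ℂ (fun y => mid j (κ y) (z y)) x :=
  (d_Fz (sg_cases j) hκ hz h).mul ((d_gj j hκ hz h).const_mul I).cexp

theorem mid_ne (j : Fin 3) {k : ℂ} {w : C2} (h : OkZ k w) : mid j k w ≠ 0 := by
  refine mul_ne_zero ?_ (exp_ne_zero _)
  rcases sg_cases j with e | e <;> rw [e]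
  exacts [h.2.2.2.2.2.1, h.2.2.2.2.2.2.1]

theorem ev_OkZ (hκ : DifferentiableAt ℂ κ x) (hz : DifferentiableAt ℂ z x) (h : OkZ (κ x) (z x)) :
    ∀ᶠ y in 𝓝 x, OkZ (κ y) (z y) := by
  filter_upwards [ev_ne (d_qN hz) h.1, ev_re (d_qD hκ hz h.1) h.2.1,
    ev_ne (((d_qG hκ hz h.1).pow 2).add (d_qD hκ hz h.1)) h.2.2.1,
    ev_OkM hκ (d_QQ hκ hz h) h.2.2.2.1, ev_OkM hκ (d_QQ hκ hz h) h.2.2.2.2.1,
    ev_ne (d_Fz (Or.inl rfl) hκ hz h) h.2.2.2.2.2.1,
    ev_ne (d_Fz (Or.inr rfl) hκ hz h) h.2.2.2.2.2.2.1,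
    (d_rat hκ hz h).continuousAt.eventually_mem (isOpen_slitPlane.mem_nhds h.2.2.2.2.2.2.2)]
    with y a1 a2 a3 a4 a5 a6 a7 a8
  exact ⟨a1, a2, a3, a4, a5, a6, a7, a8⟩

end Z

end Ana

variable [Lam]

open Ana in
theorem anaM : IsOpen {x : ℂ × C2 | OkM x.1 x.2} ∧ ∀ σ : ℝ, σ = 1 ∨ σ = -1 →
    DifferentiableOn ℂ (fun x : ℂ × C2 => PP σ x.1 x.2) {x | OkM x.1 x.2} ∧
    DifferentiableOn ℂ (fun x : ℂ × C2 => (bS σ x.1 x.2, bG σ x.1 x.2, bS2 σ x.1 x.2,
      bv2 σ x.1 x.2, bv3 σ x.1 x.2, Fc σ x.1 x.2, bD x.1 x.2)) {x | OkM x.1 x.2} := by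
  refine ⟨isOpen_iff_mem_nhds.2 fun x hx =>
    ev_OkM differentiableAt_fst differentiableAt_snd hx, fun σ hσ => ⟨fun x hx =>
      (d_PP hσ differentiableAt_fst differentiableAt_snd hx).differentiableWithinAt,
    fun x hx => ?_⟩⟩
  have h1 : DifferentiableAt ℂ (fun y : ℂ × C2 => y.1) x := differentiableAt_fst
  have h2 : DifferentiableAt ℂ (fun y : ℂ × C2 => y.2) x := differentiableAt_snd
  exact ((d_bS h1 h2 hx).prodMk ((d_bG h1 h2 hx).prodMk ((d_bS2 h1 h2 hx).prodMk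
    ((d_bv2 h1 h2 hx).prodMk ((d_bv3 h1 h2 hx).prodMk ((d_Fc hσ h1 h2 hx).prodMk
      (d_bD h1 h2 hx))))))).differentiableWithinAt

open Ana in
theorem anaZ : IsOpen {x : ℂ × C2 | OkZ x.1 x.2} ∧ (∀ σ : ℝ,
    DifferentiableOn ℂ (fun x : ℂ × C2 => QQ σ x.1 x.2) {x | OkZ x.1 x.2}) ∧ ∀ j,
    DifferentiableOn ℂ (fun x : ℂ × C2 => (gj j x.1 x.2, mid j x.1 x.2)) {x | OkZ x.1 x.2} :=
  ⟨isOpen_iff_mem_nhds.2 fun _ hx => ev_OkZ differentiableAt_fst differentiableAt_snd hx,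
    fun _ _ hx => (d_QQ differentiableAt_fst differentiableAt_snd hx).differentiableWithinAt,
    fun j _ hx => ((d_gj j differentiableAt_fst differentiableAt_snd hx).prodMk
      (d_mid j differentiableAt_fst differentiableAt_snd hx)).differentiableWithinAt⟩

end Pool.Agent.MP_1ba41f_an.S2.W
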