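import Mathlib
import Pool.Agent.MP_1ba41f_an.S2.W.SpecK

/-! Row BASE: the resonant circles lie in the regular sets; closed formulas on them. -/

noncomputable section
open Set Complex

namespace Pool.Agent.MP_1ba41f_an.S2.W

variable [Lam]

namespace Base

/-- The parameters of a point of `B1`. -/
structure Par (s ξ sb cb : ℝ) : Prop where
  s1 : 6 / 5 * lam ≤ s
  s2 : s ≤ 1 + lam
  x1 : cl ≤ ξ
  x2 : ξ ≤ 4
  un : sb ^ 2 + cb ^ 2 = 1
  rel : 2 * ξ * (cb + lam) = ξ ^ 2 + s ^ 2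

def kap (s : ℝ) : ℂ := ((sm * s : ℝ) : ℂ)
def rr (s ξ : ℝ) : ℝ := (4 - s ^ 2 - (ξ - 2 * lam) ^ 2) / 2
def pt (s ξ sb : ℝ) : C2 := r2c (rr s ξ, ξ * sb)
def TT (sb cb : ℝ) : ℝ := (sm + sb) / (lam + cb)

omit [Lam] in
theorem sq_real {x : ℝ} (hx : 0 ≤ x) : sq (x : ℂ) = (√x : ℝ) := by
  rw [sq, Real.sqrt_eq_rpow, Complex.ofReal_cpow hx]
  norm_num

omit [Lam] in
theorem re_div_pos {a b c : ℝ} (ha : 0 < a) (hc : 0 < c) : 0 < (((a : ℂ) - I * b) / c).re := by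
  rw [Complex.div_ofReal_re]
  simpa using div_pos ha hc

variable {s ξ sb cb σ : ℝ}

theorem sm_pos : 0 < sm := by linarith [sm_ge]

theorem Par.sp (h : Par s ξ sb cb) : 0 < s := by linarith [h.s1, lam_pos]
theorem Par.xp (h : Par s ξ sb cb) : 0 < ξ := by linarith [h.x1, cl_pos]

theorem Par.s3 (h : Par s ξ sb cb) : 36 / 25 * lam ^ 2 ≤ s ^ 2 := by nlinarith [h.s1, lam_pos]

theorem Par.cs (h : Par s ξ sb cb) : s ≤ lam + cb := by
  have h1 : 2 * ξ * s ≤ 2 * ξ * (lam + cb) := by nlinarith [h.rel, sq_nonneg (ξ - s)]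
  exact le_of_mul_le_mul_left h1 (by linarith [h.xp])

theorem Par.cp (h : Par s ξ sb cb) : 0 < lam + cb := h.sp.trans_le h.cs
theorem Par.c1 (h : Par s ξ sb cb) : cb ≤ 1 := by nlinarith [h.un, sq_nonneg sb, sq_nonneg (cb - 1)]
theorem Par.b1 (h : Par s ξ sb cb) : sb ≤ 1 := by nlinarith [h.un, sq_nonneg cb, sq_nonneg (sb - 1)]

theorem Par.neg (h : Par s ξ sb cb) : Par s ξ (-sb) cb :=
  ⟨h.s1, h.s2, h.x1, h.x2, by linarith [h.un, neg_sq sb], h.rel⟩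

theorem Par.sgn (h : Par s ξ sb cb) (hσ : σ = 1 ∨ σ = -1) : Par s ξ (σ * sb) cb := by
  rcases hσ with rfl | rfl
  · simpa using h
  · simpa using h.neg

theorem Par.sum (h : Par s ξ sb cb) : s ^ 2 / ξ = 2 * (lam + cb) - ξ := by
  rw [div_eq_iff h.xp.ne']
  linear_combination (-1) * h.rel

theorem Par.partner (h : Par s ξ sb cb) : Par s (s ^ 2 / ξ) (-sb) cb := by
  have e := h.sum
  have e2 : s ^ 2 / ξ * ξ = s ^ 2 := div_mul_cancel₀ _ h.xp.ne'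
  have p : 0 < s ^ 2 / ξ := div_pos (pow_pos h.sp 2) h.xp
  have c1 := h.c1
  have xp := h.xp
  have s1 := h.s3
  have x2 := h.x2
  have l1 := lam_le
  generalize s ^ 2 / ξ = η at *
  refine ⟨h.s1, h.s2, ?_, by linarith, h.neg.un, by linear_combination (-η) * e + e2⟩
  unfold cl
  nlinarith [mul_le_mul_of_nonneg_left x2 p.le, sq_nonneg lam]

theorem Par.back (h : Par s ξ sb cb) : s ^ 2 / (s ^ 2 / ξ) = ξ := by
  have := h.xp.ne'
  have := h.sp.ne'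
  field_simp

theorem Par.rL (h : Par s ξ sb cb) :
    (ξ * sb) ^ 2 + (sm * s) ^ 2 = rr s ξ * (ξ ^ 2 + s ^ 2) / 2 := by
  unfold rr
  linear_combination ξ ^ 2 * h.un + s ^ 2 * sm_sq -
    (1 / 4) * (ξ ^ 2 + s ^ 2 + 2 * ξ * (cb + lam) - 4 * lam * ξ) * h.rel

theorem Par.r1 (h : Par s ξ sb cb) : cl ≤ rr s ξ := by
  have e := h.rL
  have l0 := lam_pos
  have hc : cb + lam ≤ 8 / 5 := by linarith [h.c1, lam_le]
  have hL : ξ ^ 2 + s ^ 2 ≤ 64 / 5 := by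
    nlinarith [h.rel, h.x2, mul_le_mul_of_nonneg_left hc h.xp.le]
  have hp : 0 < ξ ^ 2 + s ^ 2 := by have := h.xp; positivity
  have hm : 16 / 25 ≤ sm ^ 2 := by nlinarith [sm_ge]
  have hk : 16 / 25 * s ^ 2 ≤ (sm * s) ^ 2 := by
    rw [mul_pow]
    exact mul_le_mul_of_nonneg_right hm (sq_nonneg s)
  have hq : cl * (ξ ^ 2 + s ^ 2) ≤ cl * (64 / 5) := mul_le_mul_of_nonneg_left hL cl_pos.le
  have s3 := h.s3
  by_contra hc
  rw [not_le] at hc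
  have h1 := mul_lt_mul_of_pos_right hc hp
  have h2 : cl = lam ^ 2 / 8 := rfl
  nlinarith [sq_nonneg (ξ * sb), pow_pos l0 2]

theorem Par.rp (h : Par s ξ sb cb) : 0 < rr s ξ := by linarith [h.r1, cl_pos]

theorem Par.t1 (h : Par s ξ sb cb) : TT sb cb * (lam + cb) = sm + sb :=
  div_mul_cancel₀ _ h.cp.ne'

theorem Par.t3 (h : Par s ξ sb cb) : TT sb cb * (sm - sb) = cb - lam := by
  apply mul_right_cancel₀ h.cp.ne'
  linear_combination (sm - sb) * h.t1 - h.un + sm_sq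

theorem Par.g2 (h : Par s ξ sb cb) : 0 < 1 + s * (sm - lam * TT sb cb) := by
  have t1 := h.t1
  have cs := h.cs
  have sp := h.sp
  have b1 := h.b1
  have s1 := h.s1
  have l0 := lam_pos
  have l1 := lam_le
  have m0 := sm_pos
  generalize TT sb cb = T at *
  have h0 : lam * sm ≤ s * sm := mul_le_mul_of_nonneg_right (by linarith) m0.le
  have h1 : s * T ≤ sm + 1 := by
    rcases le_total T 0 with hT | hT
    · nlinarith
    · nlinarith [mul_nonneg hT (sub_nonneg.2 cs)]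
  nlinarith [mul_le_mul_of_nonneg_left h1 l0.le]

theorem Par.sg (h : Par s ξ sb cb) :
    (ξ * TT sb cb - 2 * sm) ^ 2 + (s * TT sb cb) ^ 2 = 2 * rr s ξ := by
  unfold rr
  linear_combination (-(TT sb cb ^ 2 + 1)) * h.rel + 2 * ξ * TT sb cb * h.t1 - 2 * ξ * h.t3 +
    4 * sm_sq

/-! ### Closed formulas -/

theorem Par.eta (h : Par s ξ sb cb) : bEta (kap s) (pt s ξ sb) = (ξ - 2 * lam : ℝ) := by
  have r0 := h.rp.ne'
  have e : ((ξ * sb) ^ 2 + (sm * s) ^ 2 + rr s ξ ^ 2 - 2 * (1 + lam ^ 2) * rr s ξ) / (2 * lam * rr s ξ) =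
      ξ - 2 * lam := by
    have := lam_pos.ne'
    rw [h.rL, div_eq_iff (by positivity)]
    unfold rr
    ring
  rw [← e]
  simp only [bEta, kap, pt, r2c]
  push_cast
  ring

theorem Par.D (h : Par s ξ sb cb) : bD (kap s) (pt s ξ sb) = (s ^ 2 : ℝ) := by
  rw [bD, h.eta]
  simp only [pt, r2c, rr]
  push_cast
  ring

theorem Par.bs (h : Par s ξ sb cb) : bs (kap s) (pt s ξ sb) = s := by
  rw [W.bs, h.D, sq_real (sq_nonneg s), Real.sqrt_sq h.sp.le]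

theorem Par.L (h : Par s ξ sb cb) : bL (kap s) (pt s ξ sb) = (ξ ^ 2 + s ^ 2 : ℝ) := by
  rw [bL, bxi, h.eta, h.D]
  push_cast
  ring

theorem Par.G (h : Par s ξ sb cb) (σ : ℝ) :
    bG σ (kap s) (pt s ξ sb) = (s * TT (σ * sb) cb : ℝ) := by
  have e : 2 * (sm * s * ξ + σ * s * (ξ * sb)) / (ξ ^ 2 + s ^ 2) = s * TT (σ * sb) cb := by
    have := h.xp.ne'
    have := h.cp.ne'
    rw [← h.rel, TT, add_comm cb]
    field_simp
  rw [← e, bG, h.L, bxi, h.eta, h.bs]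
  simp only [kap, pt, r2c]
  push_cast
  ring

theorem Par.G2 (h : Par s ξ sb cb) (σ : ℝ) :
    bG2 σ (kap s) (pt s ξ sb) = (s * (sm - lam * TT (σ * sb) cb) : ℝ) := by
  rw [bG2, h.G, kap]
  push_cast
  ring

theorem Par.S (h : Par s ξ sb cb) (σ : ℝ) :
    bS σ (kap s) (pt s ξ sb) = (σ * (ξ * TT (σ * sb) cb - 2 * sm) : ℝ) := by
  have : (s : ℂ) ≠ 0 := ofReal_ne_zero.2 h.sp.ne'
  rw [bS, h.G2, h.G, h.eta, h.bs, div_eq_iff this]
  push_cast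
  ring

theorem Par.X (h : Par s ξ sb cb) (σ : ℝ) :
    1 - bX σ (kap s) (pt s ξ sb) = (s ^ 2 * (1 + TT (σ * sb) cb ^ 2) / 2 : ℝ) := by
  rw [bX, h.G, h.D]
  push_cast
  ring

theorem Par.Y (h : Par s ξ sb cb) (σ : ℝ) :
    bY σ (kap s) (pt s ξ sb) = (-σ * s * ((ξ - 2 * lam) * (1 + TT (σ * sb) cb ^ 2) -
      2 * TT (σ * sb) cb * (sm - lam * TT (σ * sb) cb)) / 2 : ℝ) := by
  have : (2 * s : ℂ) ≠ 0 := mul_ne_zero two_ne_zero (ofReal_ne_zero.2 h.sp.ne')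
  rw [bY, h.G2, h.G, h.eta, h.bs, h.D, div_eq_iff this]
  push_cast
  ring

theorem Par.K (h : Par s ξ sb cb) :
    bK (kap s) (pt s ξ sb) = ((rr s ξ - 2 * (1 - lam) + (1 - lam) * (ξ - 2 * lam)) / (1 + lam) : ℝ) := by
  rw [bK, h.eta]
  simp only [pt, r2c]
  push_cast
  ring

theorem Par.Sb (h : Par s ξ sb cb) (σ : ℝ) :
    bS2 σ (kap s) (pt s ξ sb) = (((ξ - 2 * lam) * (σ * (ξ * TT (σ * sb) cb - 2 * sm)) +
      σ * s * (s * TT (σ * sb) cb)) / 2 : ℝ) := by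
  have r0 : (rr s ξ : ℂ) ≠ 0 := ofReal_ne_zero.2 h.rp.ne'
  rw [bS2, bv2, bv2t, bv3, bv3t, h.S, h.G, h.eta, h.bs]
  simp only [pt, r2c]
  generalize TT (σ * sb) cb = T
  push_cast
  field_simp
  linear_combination (-(2 * σ * s ^ 2 * T)) * I_sq

/-- The square root of the phase, up to a positive factor. -/
def AA (σ s ξ T : ℝ) : ℂ := (σ * (ξ * T - 2 * sm) - σ * s : ℝ) - I * (s * T + (ξ - 2 * lam) : ℝ)

theorem Par.Fc (h : Par s ξ sb cb) (hσ : σ = 1 ∨ σ = -1) :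
    Fc σ (kap s) (pt s ξ sb) = -AA σ s ξ (TT (σ * sb) cb) ^ 2 /
      (4 * (1 + s * (sm - lam * TT (σ * sb) cb)) : ℝ) := by
  have r0 : (rr s ξ : ℂ) ≠ 0 := ofReal_ne_zero.2 h.rp.ne'
  have e0 : (σ * (ξ * TT (σ * sb) cb - 2 * sm)) ^ 2 + (s * TT (σ * sb) cb) ^ 2 = 2 * rr s ξ := by
    rw [← (h.sgn hσ).sg]
    rcases hσ with rfl | rfl <;> ring
  rw [W.Fc, ← mul_pow, bv2, bv3, h.S, h.G2, h.G, h.eta, h.bs, AA]
  simp only [pt, r2c]
  generalize TT (σ * sb) cb = T at *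
  generalize σ * (ξ * T - 2 * sm) = S at *
  have e1 : (S : ℂ) ^ 2 + (s * T : ℝ) ^ 2 = 2 * rr s ξ := by exact_mod_cast e0
  have e2 : ((S : ℂ) + I * (s * T : ℝ)) / rr s ξ * (S - I * (s * T : ℝ)) = 2 := by
    rw [div_mul_eq_mul_div, div_eq_iff r0]
    linear_combination e1 - ((s * T : ℝ) : ℂ) ^ 2 * I_sq
  congr 3
  · push_cast at e2 ⊢
    linear_combination (-I * (ξ - 2 * lam - I * σ * s) / 2) * e2 + σ * s * I_sq
  · push_cast
    ring

theorem Par.A0 (h : Par s ξ sb cb) (hσ : σ = 1 ∨ σ = -1) : AA σ s ξ (TT (σ * sb) cb) ≠ 0 := by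
  intro e
  have g := (h.sgn hσ).g2
  have sg := (h.sgn hσ).sg
  have e1 := congrArg re e
  have e2 := congrArg im e
  simp only [AA, sub_re, sub_im, mul_re, mul_im, I_re, I_im, ofReal_re, ofReal_im, zero_re,
    zero_im] at e1 e2
  unfold rr at sg
  generalize TT (σ * sb) cb = T at *
  have a1 : ξ * T - 2 * sm - s = 0 := by rcases hσ with rfl | rfl <;> linarith
  have a2 : s * T + (ξ - 2 * lam) = 0 := by linarith
  have : 4 * (1 + s * (sm - lam * T)) = 0 := by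
    linear_combination (ξ * T - 2 * sm - s) * a1 + (s * T + (ξ - 2 * lam)) * a2 - sg
  linarith

theorem Par.Fc0 (h : Par s ξ sb cb) (hσ : σ = 1 ∨ σ = -1) : W.Fc σ (kap s) (pt s ξ sb) ≠ 0 := by
  rw [h.Fc hσ]
  exact div_ne_zero (neg_ne_zero.2 (pow_ne_zero 2 (h.A0 hσ)))
    (ofReal_ne_zero.2 (by linarith [(h.sgn hσ).g2]))

theorem Par.AP (h : Par s ξ sb cb) : AA (-1) s (s ^ 2 / ξ) (TT sb cb) * (lam + I * sm) =
    -((cb - I * sb) * AA 1 s ξ (TT sb cb)) := by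
  have t1 := h.t1
  have t3 := h.t3
  rw [h.sum]
  generalize TT sb cb = T at *
  apply Complex.ext <;>
    simp only [AA, sub_re, sub_im, add_re, add_im, mul_re, mul_im, neg_re, neg_im, I_re, I_im,
      ofReal_re, ofReal_im]
  · linear_combination s * t3 - (2 * (lam + cb) - ξ) * t1 + 2 * cb * t1
  · linear_combination (-(2 * (lam + cb) - ξ)) * t3 - s * t1 - 2 * sb * t1 - 2 * h.un +
      2 * sm_sq

theorem Par.okM (h : Par s ξ sb cb) : OkM (kap s) (pt s ξ sb) := by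
  have sp := h.sp
  have xp := h.xp
  have m0 := sm_pos
  refine ⟨ofReal_ne_zero.2 h.rp.ne', ?_, ?_, ?_, ?_, fun σ hσ => ⟨?_, ?_, ?_⟩⟩
  · rw [h.D, ofReal_re]
    positivity
  · rw [h.L]
    exact ofReal_ne_zero.2 (by positivity)
  · simp only [kap, pt, r2c]
    exact_mod_cast (by positivity : (sm * s) ^ 2 + (ξ * sb) ^ 2 ≠ 0)
  · rw [h.D, h.K]
    generalize (rr s ξ - 2 * (1 - lam) + (1 - lam) * (ξ - 2 * lam)) / (1 + lam) = K
    exact_mod_cast (by positivity : s ^ 2 + K ^ 2 ≠ 0)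
  · rw [h.X]
    exact ofReal_ne_zero.2 (by positivity)
  · rw [h.D, h.G]
    generalize s * TT (σ * sb) cb = G
    exact_mod_cast (by positivity : G ^ 2 + s ^ 2 ≠ 0)
  · rw [h.G2]
    have := (h.sgn hσ).g2.ne'
    generalize s * (sm - lam * TT (σ * sb) cb) = G at *
    exact_mod_cast this

theorem Par.okX (hB : AlgBStmt) (h : Par s ξ sb cb) : OkX a0 (yB (kap s, pt s ξ sb)) := by
  have sp := h.sp
  obtain ⟨⟨b1, b2, b3, -⟩, -⟩ := hB 1 _ _ (Or.inl rfl) h.okM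
  rw [h.K] at b1 b2
  rw [h.D] at b2
  rw [h.bs] at b3
  generalize (rr s ξ - 2 * (1 - lam) + (1 - lam) * (ξ - 2 * lam)) / (1 + lam) = K at *
  have m0 := sm_pos
  have ap : 0 < a0 := by linarith [a0_mem.1]
  have y0 : yB (kap s, pt s ξ sb) 0 = (a0 * (sm * s) : ℝ) := by
    simp only [yB, kap, Matrix.cons_val_zero]
    push_cast
    ring
  have y2 : yB (kap s, pt s ξ sb) 2 = (rr s ξ : ℝ) := rfl
  have y3 : yB (kap s, pt s ξ sb) 3 = (a0 * (ξ * sb) : ℝ) := by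
    show (a0 * ((ξ * sb : ℝ) : ℂ)) = _
    push_cast
    ring
  have y4 : yB (kap s, pt s ξ sb) 4 = 0 := rfl
  have y5 : yB (kap s, pt s ξ sb) 5 = 0 := rfl
  generalize yB (kap s, pt s ξ sb) = y at *
  generalize a0 * (ξ * sb) = P at *
  have cp : 0 < a0 * (sm * s) := by positivity
  generalize a0 * (sm * s) = c at *
  have np : 0 < c ^ 2 + P ^ 2 := by positivity
  have n : n2 y = (c ^ 2 + P ^ 2 : ℝ) := by
    rw [n2, y0, y3]
    push_cast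
    ring
  generalize c ^ 2 + P ^ 2 = N at *
  have ep : 0 < (s ^ 2 + K ^ 2) / N := by positivity
  have e : e2 a0 y = ((s ^ 2 + K ^ 2) / N : ℝ) := by
    rw [n] at b2
    push_cast at b2 ⊢
    rw [eq_div_iff (ofReal_ne_zero.2 np.ne'), b2]
  have d : e2 a0 y * n2 y - kh a0 y 0 ^ 2 = (s ^ 2 : ℝ) := by
    rw [b2, b1]
    ring
  have z : ∀ τ : ℝ, 0 < (zz a0 τ y 0).re := fun τ => by
    rw [zz, b3, b1, e, n, sq_real ep.le, sq_real np.le, ← ofReal_mul, mul_assoc, ← ofReal_mul]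
    exact re_div_pos sp (by positivity)
  rw [OkX, y4, y5, d, y2, z0, y0, y3, e, n, sq_real np.le]
  simp only [ofReal_re]
  exact ⟨ap, a0_mem.2, h.rp, np, ep, re_div_pos cp (by positivity),
    by positivity, by positivity, fun τ _ => ⟨z τ, z τ⟩⟩

theorem Par.PP (h : Par s ξ sb cb) :
    PP (-1) (kap s) (pt s (s ^ 2 / ξ) (-sb)) = PP 1 (kap s) (pt s ξ sb) := by
  have t1 := h.t1
  have t3 := h.t3
  rw [W.PP, W.PP, h.X, h.partner.X, h.G2, h.partner.G2, h.Y, h.partner.Y, h.sum]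
  simp only [neg_mul, one_mul, neg_neg]
  generalize TT sb cb = T at *
  congr 3
  linear_combination s * T * t1 - s * t3

theorem Par.QQ (hQ : AlgQStmt) (h : Par s ξ sb cb) :
    QQ (-1) (kap s) (W.PP 1 (kap s) (pt s ξ sb)) = pt s (s ^ 2 / ξ) (-sb) := by
  rw [← h.PP]
  exact ((hQ (-1) _ (Or.inr rfl)).1 _ h.partner.okM).2.2.2.2.2.2.2

theorem Par.QQ1 (hQ : AlgQStmt) (h : Par s ξ sb cb) :
    W.QQ 1 (kap s) (W.PP 1 (kap s) (pt s ξ sb)) = pt s ξ sb :=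
  ((hQ 1 _ (Or.inl rfl)).1 _ h.okM).2.2.2.2.2.2.2

theorem Par.ratio (hQ : AlgQStmt) (h : Par s ξ sb cb) :
    Fz (-1) (kap s) (W.PP 1 (kap s) (pt s ξ sb)) / Fz 1 (kap s) (W.PP 1 (kap s) (pt s ξ sb)) *
      (lam + I * sm) ^ 2 = (cb - I * sb) ^ 2 := by
  have hA0 := h.A0 (Or.inl rfl)
  have g := h.g2
  have ap := h.AP
  rw [Fz, Fz, h.QQ hQ, h.QQ1 hQ, h.Fc (Or.inl rfl), h.partner.Fc (Or.inr rfl)]
  simp only [neg_mul, one_mul, neg_neg] at hA0 ⊢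
  have g0 : ((4 * (1 + s * (sm - lam * TT sb cb)) : ℝ) : ℂ) ≠ 0 :=
    ofReal_ne_zero.2 (by linarith)
  rw [div_div_div_cancel_right₀ g0, neg_div_neg_eq, div_mul_eq_mul_div, ← mul_pow, ap,
    div_eq_iff (pow_ne_zero 2 hA0)]
  ring

theorem Par.okZ (hQ : AlgQStmt) (h : Par s ξ sb cb) :
    OkZ (kap s) (W.PP 1 (kap s) (pt s ξ sb)) := by
  obtain ⟨q1, -, -, -, q5, q6, -, -⟩ := (hQ 1 _ (Or.inl rfl)).1 _ h.okM
  have c0 : 0 < cb := by linarith [h.cs, h.s1, lam_pos]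
  refine ⟨q1, q6 ▸ h.okM.2.1, ?_, ?_, ?_, ?_, ?_, ?_⟩
  · rw [q5, q6]
    exact (h.okM.2.2.2.2.2 1 (Or.inl rfl)).2.1
  · rw [h.QQ1 hQ]
    exact h.okM
  · rw [h.QQ hQ]
    exact h.partner.okM
  · rw [Fz, h.QQ1 hQ]
    exact h.Fc0 (Or.inl rfl)
  · rw [Fz, h.QQ hQ]
    exact h.partner.Fc0 (Or.inr rfl)
  · rw [h.ratio hQ, mem_slitPlane_iff]
    simp only [pow_two, sub_re, sub_im, mul_re, mul_im, I_re, I_im, ofReal_re, ofReal_im]
    rcases eq_or_ne sb 0 with rfl | hs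
    · left
      nlinarith
    · right
      intro e
      exact mul_ne_zero c0.ne' hs (by linarith)

theorem Par.okZ' (hQ : AlgQStmt) (h : Par s ξ sb cb) :
    OkZ (kap s) (W.PP (-1) (kap s) (pt s ξ sb)) := by
  have e := h.partner.PP
  rw [h.back, neg_neg] at e
  rw [e]
  exact h.partner.okZ hQ

theorem compact : IsCompact B1 := by
  have hK : IsCompact {x : ℝ × ℝ × ℝ × ℝ | Par x.1 x.2.1 x.2.2.1 x.2.2.2} := by
    refine IsCompact.of_isClosed_subset ((isCompact_Icc (a := (6 / 5 * lam : ℝ)) (b := 1 + lam)).prod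
      ((isCompact_Icc (a := (cl : ℝ)) (b := 4)).prod
        ((isCompact_Icc (a := (-1 : ℝ)) (b := 1)).prod (isCompact_Icc (a := (-1 : ℝ)) (b := 1)))))
      ?_ fun x h => ⟨⟨h.s1, h.s2⟩, ⟨h.x1, h.x2⟩, ⟨by linarith [(Par.neg h).b1], Par.b1 h⟩,
        ⟨by linarith [Par.cp h, lam_le], Par.c1 h⟩⟩
    have e : {x : ℝ × ℝ × ℝ × ℝ | Par x.1 x.2.1 x.2.2.1 x.2.2.2} =
        {x | 6 / 5 * lam ≤ x.1} ∩ {x | x.1 ≤ 1 + lam} ∩ {x | cl ≤ x.2.1} ∩ {x | x.2.1 ≤ 4} ∩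
          {x | x.2.2.1 ^ 2 + x.2.2.2 ^ 2 = 1} ∩
          {x | 2 * x.2.1 * (x.2.2.2 + lam) = x.2.1 ^ 2 + x.1 ^ 2} :=
      Set.ext fun x => ⟨fun h => ⟨⟨⟨⟨⟨h.s1, h.s2⟩, h.x1⟩, h.x2⟩, h.un⟩, h.rel⟩,
        fun ⟨⟨⟨⟨⟨a, b⟩, c⟩, d⟩, e⟩, f⟩ => ⟨a, b, c, d, e, f⟩⟩
    rw [e]
    exact (((((isClosed_le (by fun_prop) (by fun_prop)).inter
      (isClosed_le (by fun_prop) (by fun_prop))).inter
      (isClosed_le (by fun_prop) (by fun_prop))).inter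
      (isClosed_le (by fun_prop) (by fun_prop))).inter
      (isClosed_eq (by fun_prop) (by fun_prop))).inter (isClosed_eq (by fun_prop) (by fun_prop))
  have hc : Continuous fun x : ℝ × ℝ × ℝ × ℝ => (kap x.1, pt x.1 x.2.1 x.2.2.1) := by
    unfold kap pt r2c rr
    fun_prop
  convert hK.image hc using 1
  ext x
  exact ⟨fun ⟨s, ξ, sb, cb, a, b, c, d, e, f, g⟩ => ⟨(s, ξ, sb, cb), ⟨a, b, c, d, e, f⟩, g.symm⟩,
    fun ⟨y, h, g⟩ => ⟨_, _, _, _, h.s1, h.s2, h.x1, h.x2, h.un, h.rel, g.symm⟩⟩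

end Base

open Base in
theorem baseS (_hA : AlgAStmt) (hB : AlgBStmt) (hQ : AlgQStmt) : BaseStmt := by
  refine ⟨compact, ?_, ?_⟩
  · rintro x ⟨s, ξ, sb, cb, a, b, c, d, e, f, rfl⟩
    have h : Par s ξ sb cb := ⟨a, b, c, d, e, f⟩
    refine ⟨⟨s, ξ, -sb, cb, a, b, c, d, h.neg.un, f, ?_⟩, ofReal_im _, ⟨ofReal_im _, ofReal_im _⟩,
      ?_, h.r1, h.okM, h.okX hB, h.okZ hQ, h.okZ' hQ⟩
    · simp only [Gm, r2c, mul_neg, ofReal_neg]
    · rw [ofReal_re]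
      have l0 := lam_pos
      have l1 := lam_le
      unfold cl
      nlinarith [mul_le_mul_of_nonneg_right sm_ge h.sp.le, mul_le_mul_of_nonneg_left l1 l0.le]
  · rintro s ξ sb cb a b c d e f _ _ rfl rfl
    have h : Par s ξ sb cb := ⟨a, b, c, d, e, f⟩
    have q := h.QQ hQ
    have t1 := h.t1
    refine ⟨by linarith [h.cs], h.eta, h.D, h.bs, ?_, ?_, ⟨⟨h.partner.x1, h.partner.x2⟩, ?_⟩,
      ?_, ?_, h.ratio hQ⟩
    · simpa only [one_mul, kap, Base.pt, rr, TT] using h.G 1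
    · simpa only [one_mul, kap, Base.pt, rr, TT] using h.S 1
    · simpa only [mul_neg, kap, Base.pt, rr] using q
    · refine (congrArg₂ (· - ·) ((congrArg _ q).trans (h.partner.S (-1))) (h.S 1)).trans ?_
      rw [← ofReal_sub, h.sum]
      simp only [neg_mul, one_mul, neg_neg]
      congr 1
      linear_combination (-2) * t1
    · refine (congrArg₂ (· - ·) ((congrArg _ q).trans (h.partner.Sb (-1))) (h.Sb 1)).trans ?_
      rw [← ofReal_sub, h.sum]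
      simp only [neg_mul, one_mul, neg_neg]
      congr 1
      linear_combination TT sb cb * f - 2 * cb * t1

end Pool.Agent.MP_1ba41f_an.S2.W
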