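import Pool.Agent.MP_1ba41f_an.S2.W.SpecK

/-! In the limit the small bodies do not meet again (general mass ratio). -/

noncomputable section
open Set Complex

namespace Pool.Agent.MP_1ba41f_an.S2.W

namespace Early

theorem angb {sb cb : ℝ} (h1 : sb ^ 2 + cb ^ 2 = 1) (hc : 0 < cb) :
    Real.sin (Real.arcsin sb) = sb ∧ Real.cos (Real.arcsin sb) = cb ∧ sb < 1 := by
  refine ⟨Real.sin_arcsin (by nlinarith) (by nlinarith), ?_, by nlinarith⟩
  rw [Real.cos_arcsin, show 1 - sb ^ 2 = cb ^ 2 by linarith, Real.sqrt_sq hc.le]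

theorem poly {a c : ℝ} (h1 : a ^ 2 + c ^ 2 = 1) (ha : 0 ≤ a) (hc : 3 / 25 ≤ c) :
    5 / 6 ≤ c + a * c + 2 / 3 * a ^ 3 := by
  have h2 : a ≤ 1 := by nlinarith
  have h3 : c ≤ 1 := by nlinarith
  have h4 : a ^ 2 ≤ a := by nlinarith
  have h5 : (1 - c ^ 2) * c ≤ a * c := by nlinarith
  have h6 : a ^ 4 ≤ a ^ 3 := pow_le_pow_of_le_one ha h2 (by norm_num)
  have h7 : 1 - 2 * c ^ 2 ≤ a ^ 4 := by
    have : a ^ 4 = (1 - c ^ 2) ^ 2 := by rw [← h1]; ring
    nlinarith [sq_nonneg (c ^ 2)]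
  rcases le_total c (3 / 5) with h | h
  · nlinarith [mul_nonneg (sub_nonneg.2 hc) (sub_nonneg.2 h),
      mul_nonneg (mul_nonneg (sub_nonneg.2 hc) (sub_nonneg.2 h)) (by linarith : 0 ≤ c)]
  · have h8 : 0 ≤ a ^ 3 := by positivity
    nlinarith [mul_nonneg (sub_nonneg.2 h3) (sub_nonneg.2 h),
      mul_nonneg (mul_nonneg (sub_nonneg.2 h3) (sub_nonneg.2 h)) (by linarith : 0 ≤ c)]

theorem poly' {a c l : ℝ} (h1 : a ^ 2 + c ^ 2 = 1) (ha : 0 ≤ a) (hl : 0 < l) (hl' : l ≤ 3 / 5)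
    (hc : l / 5 ≤ c) : 2 / 3 + 5 / 18 * l ≤ c + a * c + 2 / 3 * a ^ 3 := by
  rcases le_total c (3 / 25) with h | h
  · have h0 : 0 ≤ c := by linarith
    have h2 : a ≤ 1 := by nlinarith
    have h4 : a ^ 2 ≤ a := by nlinarith
    have h5 : (1 - c ^ 2) * c ≤ a * c := by nlinarith
    have h6 : a ^ 4 ≤ a ^ 3 := pow_le_pow_of_le_one ha h2 (by norm_num)
    have h7 : 1 - 2 * c ^ 2 ≤ a ^ 4 := by
      have : a ^ 4 = (1 - c ^ 2) ^ 2 := by rw [← h1]; ring
      nlinarith [sq_nonneg (c ^ 2)]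
    have h8 : c ^ 2 ≤ 3 / 25 * c := by nlinarith
    have h9 : c ^ 3 ≤ 3 / 25 * c := by nlinarith
    nlinarith
  · linarith [poly h1 ha h]

theorem split {r a b a' b' c z u ε : ℝ} (hr : r ≠ 0)
    (h : (ε : ℂ) * (c + ((a : ℂ) + I * b) / r * z) = 1 + ((a' : ℂ) + I * b') / r * u) :
    b * (ε * z) = b' * u ∧ r * (ε * c) + a * (ε * z) = r + a' * u := by
  have hr1 : (r : ℂ) ≠ 0 := by exact_mod_cast hr
  have h1 : (((r * (ε * c) + a * (ε * z) : ℝ) : ℂ)) + I * (b * (ε * z) : ℝ) =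
      ((r + a' * u : ℝ) : ℂ) + I * (b' * u : ℝ) := by
    field_simp at h
    push_cast
    linear_combination h
  have h2 := congrArg re h1
  have h3 := congrArg im h1
  simp only [add_re, add_im, mul_re, mul_im, I_re, I_im, ofReal_re, ofReal_im] at h2 h3
  constructor <;> linarith

theorem cut {sb cb : ℝ} (h1 : sb ^ 2 + cb ^ 2 = 1) (hc : 0 < cb) :
    I / 2 * log (((cb : ℂ) - I * sb) ^ 2) = Real.arcsin sb := by
  obtain ⟨e1, e2, e3⟩ := angb h1 hc
  have p5 := Real.arcsin_lt_pi_div_two.2 e3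
  have p6 := Real.neg_pi_div_two_le_arcsin sb
  generalize Real.arcsin sb = β at *
  have h2 : ((cb : ℂ) - I * sb) ^ 2 = exp ((-2 * β : ℝ) * I) := by
    have h3 : exp ((-β : ℝ) * I) = cb - I * sb := by
      rw [exp_mul_I, ← ofReal_cos, ← ofReal_sin, Real.cos_neg, Real.sin_neg, e1, e2]
      push_cast
      ring
    rw [← h3, ← exp_nat_mul]
    congr 1
    push_cast
    ring
  rw [h2, log_exp (by simp; linarith) (by simp; linarith)]
  push_cast
  linear_combination -(β : ℂ) * I_sq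

theorem low0 : 89 / 100 ≤ Real.arccos (3 / 5) := by
  by_contra h
  have h1 := Real.one_sub_sq_div_two_le_cos (x := Real.arccos (3 / 5))
  have h2 := Real.arccos_nonneg (3 / 5)
  rw [Real.cos_arccos (by norm_num) (by norm_num)] at h1
  nlinarith

variable [Lam]

theorem cos0 : Real.cos (Real.arccos lam) = lam :=
  Real.cos_arccos (by linarith [lam_pos]) (by linarith [lam_le])

theorem sin0 : Real.sin (Real.arccos lam) = sm := Real.sin_arccos _

theorem low1 : 89 / 100 ≤ Real.arccos lam := low0.trans (Real.arccos_le_arccos lam_le)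

theorem kk : 7 / 250 ≤ 2 / 3 * sm ^ 3 - lam * sm + 5 / 18 * lam := by
  have h1 := sub_nonneg.2 sm_ge
  have h2 := sub_nonneg.2 lam_le
  nlinarith [mul_nonneg h1 h2, mul_nonneg h1 h1, mul_nonneg h1 (mul_nonneg h1 h1)]

theorem lamS {sb cb θ : ℝ} (h1 : sb ^ 2 + cb ^ 2 = 1) (hc : lam / 5 ≤ cb)
    (hθ : θ = 2 / 3 * (sm ^ 3 - sb ^ 3) - lam * sm - sb * cb) :
    0 < Real.sin (θ + (Real.arccos lam + Real.arcsin sb)) := by
  have l0 := lam_pos
  have l1 := lam_le
  have l2 := kk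
  have l3 : sm ^ 3 ≤ 1 := pow_le_one₀ (by linarith [sm_ge]) sm_lt.le
  have l4 : 0 ≤ lam * sm := mul_nonneg l0.le (by linarith [sm_ge])
  obtain ⟨e1, e2, e3⟩ := angb h1 (by linarith)
  have p1 := Real.pi_gt_three
  have p2 := Real.pi_lt_d2
  have p3 := low1
  have p4 : Real.arccos lam ≤ Real.pi / 2 := Real.arccos_le_pi_div_two.2 l0.le
  have p5 := Real.arcsin_le_pi_div_two sb
  have p6 := Real.neg_pi_div_two_le_arcsin sb
  have h3 : cb ≤ 1 := by nlinarith
  refine Real.sin_pos_of_pos_of_lt_pi ?_ ?_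
  · rcases le_total 0 sb with h | h
    · have h4 := Real.sin_le (Real.arcsin_nonneg.2 h)
      have h5 : sb ^ 3 ≤ 1 := pow_le_one₀ h e3.le
      have h6 := mul_nonneg h (sub_nonneg.2 h3)
      rw [e1] at h4
      linarith
    · have h4 := Real.sin_le (x := Real.arcsin sb + Real.pi / 2) (by linarith)
      rw [Real.sin_add_pi_div_two, e2] at h4
      have h5 := poly' (a := -sb) (c := cb) (by linarith [neg_sq sb]) (by linarith) l0 l1 hc
      linarith
  · rcases le_total 0 sb with h | h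
    · have h4 := Real.sin_le (x := Real.pi / 2 - Real.arcsin sb) (by linarith)
      rw [Real.sin_pi_div_two_sub, e2] at h4
      have h5 := poly' h1 h l0 l1 hc
      linarith
    · have h4 := Real.sin_le (x := -Real.arcsin sb) (by linarith [Real.arcsin_nonpos.2 h])
      rw [Real.sin_neg, e1] at h4
      have h5 : (-sb) ^ 3 ≤ 1 := pow_le_one₀ (by linarith) (by nlinarith)
      have h6 := mul_nonneg (neg_nonneg.2 h) (sub_nonneg.2 h3)
      linarith

theorem tan1 {sb cb T : ℝ} (h1 : sb ^ 2 + cb ^ 2 = 1) (hc : lam / 5 ≤ cb)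
    (hT : T * (lam + cb) = sm + sb) :
    T * (sm - sb) = cb - lam ∧
      T * (1 + lam * cb - sm * sb) = sm * cb + lam * sb ∧
      T * (sm * cb + lam * sb) = 1 - lam * cb + sm * sb := by
  have h0 : lam + cb ≠ 0 := by linarith [lam_pos]
  have hm := sm_sq
  refine ⟨mul_right_cancel₀ h0 ?_, mul_right_cancel₀ h0 ?_, mul_right_cancel₀ h0 ?_⟩
  · linear_combination (sm - sb) * hT - h1 + hm
  · linear_combination (1 + lam * cb - sm * sb) * hT - sm * h1 - sb * hm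
  · linear_combination (sm * cb + lam * sb) * hT + lam * h1 + cb * hm

theorem core0 {sb cb ξ T r S S2 c z u θ : ℝ} (h1 : sb ^ 2 + cb ^ 2 = 1) (hc : lam / 5 ≤ cb)
    (hT : T * (lam + cb) = sm + sb) (hr : r = 2 * sm ^ 2 + ξ * (lam - cb)) (hr0 : r ≠ 0)
    (hS : S = ξ * T - 2 * sm) (hS2 : S2 = 2 * lam * sm - lam * ξ * T + ξ * sb)
    (hcz : c ^ 2 + z ^ 2 = 1) (hθ : Real.sin θ * c = Real.cos θ * z)
    (hI : (sm - lam * T) * z = T * u) (hR : r * c + S2 * z = r + S * u)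
    (ht : θ - z * c + r * z * c + S2 * z ^ 2 = r * u + S * u ^ 2 + 2 / 3 * u ^ 3) :
    θ = 0 ∧ u = 0 := by
  obtain ⟨t1, t2, t3⟩ := tan1 h1 hc hT
  have hm := sm_sq
  have m0 : sm ≠ 0 := by linarith [sm_ge]
  obtain ⟨μ, hμ⟩ : ∃ μ, sm * μ = u + lam * z := ⟨(u + lam * z) / sm, by field_simp⟩
  have hz : z = μ * T := mul_left_cancel₀ m0 (by linear_combination hI - T * hμ)
  have hu : u = μ * (sm - lam * T) := by linear_combination -hμ - lam * hz
  have h2 : S * (sm - lam * T) - S2 * T = -r := by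
    rw [hS, hS2, hr]
    linear_combination ξ * t1
  have h3 : c = 1 - μ := mul_left_cancel₀ hr0 (by
    linear_combination hR - S2 * hz + S * hu + μ * h2)
  have h4 : μ * (μ * (1 + T ^ 2) - 2) = 0 := by
    rw [h3, hz] at hcz
    linear_combination hcz
  rcases mul_eq_zero.1 h4 with h5 | h5
  · rw [h5, zero_mul] at hz hu
    rw [hz, hu] at ht
    exact ⟨by linarith, hu⟩
  · have h6 : μ = 1 + lam * cb - sm * sb :=
      mul_right_cancel₀ (by positivity : 1 + T ^ 2 ≠ 0) (by linear_combination h5 - T * t2 - t3)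
    have h7 : z = sm * cb + lam * sb := by rw [hz, h6, mul_comm, t2]
    have h8 : u = sm - sb := by linear_combination sm * h6 - hμ - lam * h7 - sb * hm
    have h9 : c = sm * sb - lam * cb := by linarith
    have h10 := lamS h1 hc (θ := θ) (by
      rw [hS, hS2, hr, h7, h8, h9] at ht
      linear_combination ht + ξ * (sm - sb) * t1 + lam * ξ * (sm * cb + lam * sb) * t3 -
        (lam * sm + lam * ξ * (sm * cb + lam * sb)) * h1 -
        (cb * sb + 2 * cb * sb * sm ^ 2 + 2 * lam * sb ^ 2 * sm) * hm)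
    obtain ⟨e1, e2, -⟩ := angb h1 (by linarith [lam_pos])
    rw [Real.sin_add, Real.sin_add, Real.cos_add, e1, e2, cos0, sin0] at h10
    rw [h7, h9] at hθ
    exact absurd (by linarith) h10.ne'

theorem core {s sb cb ξ T r S S2 τ2 τ3 : ℝ} (h1 : sb ^ 2 + cb ^ 2 = 1) (hc : lam / 5 ≤ cb)
    (hT : T * (lam + cb) = sm + sb) (hr : r = 2 * sm ^ 2 + ξ * (lam - cb)) (hr0 : r ≠ 0)
    (hS : S = ξ * T - 2 * sm) (hS2 : S2 = 2 * lam * sm - lam * ξ * T + ξ * sb) (hs : s ≠ 0)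
    (ε : ℝ) (hε : ε ^ 2 = 1)
    (hI : s * (sm - lam * T) * (ε * Real.sin (τ2 / 2)) = s * T * (τ3 / 2))
    (hR : r * (ε * Real.cos (τ2 / 2)) + S2 * (ε * Real.sin (τ2 / 2)) = r + S * (τ3 / 2))
    (ht : τ2 - Real.sin τ2 + r * Real.sin τ2 + S2 * (1 - Real.cos τ2) =
      r * τ3 + S * τ3 ^ 2 / 2 + τ3 ^ 3 / 6) : τ2 = 0 ∧ τ3 = 0 := by
  have e1 := Real.sin_two_mul (τ2 / 2)
  have e2 := Real.cos_two_mul (τ2 / 2)
  have e3 := Real.cos_sq_add_sin_sq (τ2 / 2)
  rw [show 2 * (τ2 / 2) = τ2 by ring] at e1 e2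
  have := core0 (θ := τ2 / 2) (c := ε * Real.cos (τ2 / 2)) (z := ε * Real.sin (τ2 / 2))
    (u := τ3 / 2) h1 hc hT hr hr0 hS hS2
    (by linear_combination ε ^ 2 * e3 + hε) (by ring)
    (mul_left_cancel₀ hs (by linear_combination hI)) hR (by
      rw [e1, e2] at ht
      linear_combination 1 / 2 * ht + S2 * e3 + ((r - 1) * Real.sin (τ2 / 2) * Real.cos (τ2 / 2) +
        S2 * Real.sin (τ2 / 2) ^ 2) * hε)
  constructor <;> linarith [this.1, this.2]

/-- closed formulas for both signs -/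
theorem forms (h0 : BaseStmt) {s ξ sb cb σ : ℝ} (hσ : σ = 1 ∨ σ = -1) (a1 : 6 / 5 * lam ≤ s)
    (a2 : s ≤ 1 + lam) (a3 : cl ≤ ξ) (a4 : ξ ≤ 4) (h1 : sb ^ 2 + cb ^ 2 = 1)
    (h2 : 2 * ξ * (cb + lam) = ξ ^ 2 + s ^ 2) {r : ℝ}
    (hr : r = (4 - s ^ 2 - (ξ - 2 * lam) ^ 2) / 2) (hr0 : r ≠ 0) {κ : ℂ} {m : C2}
    (hκ : κ = (sm * s : ℝ)) (hm : m = r2c (r, ξ * sb)) :
    lam / 5 ≤ cb ∧ ∃ T S S2 : ℝ, T * (lam + cb) = sm + σ * sb ∧ S = ξ * T - 2 * sm ∧
      S2 = 2 * lam * sm - lam * ξ * T + ξ * (σ * sb) ∧ bG σ κ m = (s * T : ℝ) ∧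
      bS σ κ m = (σ * S : ℝ) ∧ bS2 σ κ m = (σ * S2 : ℝ) ∧
      bv3 σ κ m = ((σ * S : ℝ) + I * (s * T : ℝ)) / r ∧
      bv2 σ κ m = ((σ * S2 : ℝ) + I * (s * (sm - lam * T) : ℝ)) / r := by
  have hσ2 : σ ^ 2 = 1 := by rcases hσ with rfl | rfl <;> norm_num
  obtain ⟨b1, b2, -, b3, b4, b5, -⟩ := h0.2.2 s ξ (σ * sb) cb a1 a2 a3 a4
    (by linear_combination h1 + sb ^ 2 * hσ2) h2 κ (r2c (r, ξ * (σ * sb))) hκ (by rw [hr])
  obtain ⟨T, hT⟩ : ∃ T, T = (sm + σ * sb) / (lam + cb) := ⟨_, rfl⟩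
  rw [← hT] at b4 b5
  have hT' : T * (lam + cb) = sm + σ * sb := by
    rw [hT, div_mul_cancel₀ _ (by linarith [lam_pos])]
  have c1 : bEta κ m = bEta κ (r2c (r, ξ * (σ * sb))) := by
    rcases hσ with rfl | rfl <;> simp [hm, bEta, r2c]
  have c2 : bD κ m = bD κ (r2c (r, ξ * (σ * sb))) := by
    unfold bD
    rw [c1, hm]
    rfl
  have c3 : bs κ m = bs κ (r2c (r, ξ * (σ * sb))) := by
    unfold bs
    rw [c2]
  have c4 : bG σ κ m = bG 1 κ (r2c (r, ξ * (σ * sb))) := by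
    unfold bG bL bxi
    rw [c1, c2, c3, hm]
    simp only [r2c]
    push_cast
    ring
  have c5 : bS σ κ m = σ * bS 1 κ (r2c (r, ξ * (σ * sb))) := by
    unfold bS bG2
    rw [c1, c3, c4]
    push_cast
    ring
  rw [b2] at c1
  rw [b3] at c3
  rw [b4] at c4
  rw [b5] at c5
  have hm1 : m.1 = r := by rw [hm]; rfl
  have hr1 : (r : ℂ) ≠ 0 := by exact_mod_cast hr0
  have q1 : (σ : ℂ) ^ 2 = 1 := by exact_mod_cast hσ2
  have q2 : 2 * (ξ : ℂ) * (cb + lam) = ξ ^ 2 + s ^ 2 := by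
    simpa using congrArg (fun x : ℝ => (x : ℂ)) h2
  have q3 : (T : ℂ) * (lam + cb) = sm + σ * sb := by
    simpa using congrArg (fun x : ℝ => (x : ℂ)) hT'
  refine ⟨b1, T, _, _, hT', rfl, rfl, c4, by rw [c5]; push_cast; ring, ?_, ?_, ?_⟩
  · unfold bS2 bv2 bv2t bv3 bv3t
    rw [c1, c3, c4, c5, hm1]
    field_simp
    push_cast
    linear_combination 4 * σ * ξ * q3 - 2 * σ * T * q2 - 2 * σ * s ^ 2 * T * I_sq
  · unfold bv3
    rw [c4, c5, hm1]
    push_cast
    ring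
  · unfold bv2 bv3
    rw [c1, c3, c4, c5, hm1]
    field_simp
    push_cast
    linear_combination 2 * σ * ξ * q3 - σ * T * q2 - σ * s ^ 2 * T * I_sq +
      (2 * sm * I * s - ξ * I * s * T) * q1

end Early

variable [Lam]

open Early in
theorem earlyS (_hB : AlgBStmt) (_hQ : AlgQStmt) (_hM : AlgMStmt) (h0 : BaseStmt) :
    EarlyStmt := by
  intro x hx
  have l0 := lam_pos
  have l1 := lam_le
  have l2 := cl_pos
  have l3 := sm_ge
  have l4 := sm_sq
  obtain ⟨-, -, -, -, hr0, -⟩ := h0.2.1 x hx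
  obtain ⟨s, ξ, sb, cb, a1, a2, a3, a4, h1, h2, hx⟩ := hx
  obtain ⟨r, hr⟩ : ∃ r, r = (4 - s ^ 2 - (ξ - 2 * lam) ^ 2) / 2 := ⟨_, rfl⟩
  have hκ : x.1 = (sm * s : ℝ) := by rw [hx]
  have hm : x.2 = r2c (r, ξ * sb) := by rw [hx, hr]
  have hm1 : x.2.1 = r := by rw [hm]; rfl
  rw [hm1, ofReal_re] at hr0
  have hr1 : r ≠ 0 := by linarith
  have hr2 : r = 2 * sm ^ 2 + ξ * (lam - cb) := by
    linear_combination hr + 1 / 2 * h2 - 2 * l4
  have hs : s ≠ 0 := by linarith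
  have hq : sq (r : ℂ) ≠ 0 := by
    unfold sq
    rw [Ne, cpow_eq_zero_iff]
    exact fun h => hr1 (by exact_mod_cast h.1)
  refine ⟨fun σ hσ τ2 τ3 ht hw => ?_, fun hw => ?_, fun hz σ hσ => ?_⟩
  · obtain ⟨hc, T, S, S2, hT, hS, hS2, -, f1, f2, f3, f4⟩ :=
      forms h0 hσ a1 a2 a3 a4 h1 h2 hr hr1 hκ hm
    unfold t2b t3b at ht
    unfold w2b w3b at hw
    rw [hm1, f1, f2] at ht
    rw [hm1, f3, f4, mul_pow, mul_pow, mul_right_inj' (pow_ne_zero 2 hq)] at hw
    have ht' : τ2 - Real.sin τ2 + r * Real.sin τ2 + σ * S2 * (1 - Real.cos τ2) =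
        r * τ3 + σ * S * τ3 ^ 2 / 2 + τ3 ^ 3 / 6 := by exact_mod_cast ht
    obtain ⟨ε, hε, hw'⟩ : ∃ ε : ℝ, ε ^ 2 = 1 ∧ (ε : ℂ) * ((Real.cos (τ2 / 2) : ℝ) +
        (((σ * S2 : ℝ) : ℂ) + I * (s * (sm - lam * T) : ℝ)) / r * (Real.sin (τ2 / 2) : ℝ)) =
        1 + (((σ * S : ℝ) : ℂ) + I * (s * T : ℝ)) / r * (τ3 / 2 : ℝ) := by
      rcases sq_eq_sq_iff_eq_or_eq_neg.1 hw with h | h
      · refine ⟨1, by norm_num, ?_⟩
        push_cast at h ⊢
        linear_combination h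
      · refine ⟨-1, by norm_num, ?_⟩
        push_cast at h ⊢
        linear_combination -h
    obtain ⟨g1, g2⟩ := split hr1 hw'
    rcases hσ with rfl | rfl
    · exact core (by linear_combination h1) hc hT hr2 hr1 hS hS2 hs ε hε g1
        (by linear_combination g2) (by linear_combination ht')
    · have := core (τ2 := -τ2) (τ3 := -τ3) (by linear_combination h1) hc hT hr2 hr1 hS hS2 hs ε hε
        (by rw [neg_div, Real.sin_neg]; linear_combination -g1)
        (by rw [neg_div, Real.sin_neg, Real.cos_neg]; linear_combination g2)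
        (by rw [Real.sin_neg, Real.cos_neg]; linear_combination -ht')
      constructor <;> linarith [this.1, this.2]
  · obtain ⟨hc, T, S, S2, hT, hS, hS2, -, -, -, -, f4⟩ :=
      forms h0 (Or.inl rfl) a1 a2 a3 a4 h1 h2 hr hr1 hκ hm
    obtain ⟨-, -, -, -, -, -, -, -, -, b⟩ :=
      h0.2.2 s ξ sb cb a1 a2 a3 a4 h1 h2 x.1 x.2 hκ (by rw [hm, hr])
    obtain ⟨g, hg⟩ : ∃ g, g = Real.pi - (Real.arccos lam + Real.arcsin sb) := ⟨_, rfl⟩
    have hg' : gz x.1 (PP 1 x.1 x.2) = g := by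
      unfold gz bet
      rw [b, cut h1 (by linarith), hg]
      push_cast
      ring
    unfold w2b at hw
    rw [hg', hm1, f4, mul_eq_zero, or_iff_right hq] at hw
    obtain ⟨g1, g2⟩ := split (ε := 1) (c := Real.cos (g / 2) + 1) (z := Real.sin (g / 2)) (u := 0)
      (a := 1 * S2) (b := s * (sm - lam * T)) (a' := 0) (b' := 0) hr1 (by
        push_cast at hw ⊢
        linear_combination hw)
    rw [one_mul] at hT hS2
    obtain ⟨e1, e2, -⟩ := angb h1 (by linarith)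
    obtain ⟨-, t2, -⟩ := tan1 h1 hc hT
    have k1 : Real.sin g = sm * cb + lam * sb := by
      rw [hg, Real.sin_pi_sub, Real.sin_add, e1, e2, cos0, sin0]
    have k2 : Real.cos g = sm * sb - lam * cb := by
      rw [hg, Real.cos_pi_sub, Real.cos_add, e1, e2, cos0, sin0]
      ring
    have k3 := Real.sin_two_mul (g / 2)
    have k4 := Real.cos_two_mul (g / 2)
    have k5 := Real.cos_sq_add_sin_sq (g / 2)
    rw [show 2 * (g / 2) = g by ring] at k3 k4
    generalize Real.sin (g / 2) = z at *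
    generalize Real.cos (g / 2) = c at *
    have hz : z ≠ 0 := fun h => by
      rw [h] at g2 k5
      have : c = 0 := mul_left_cancel₀ hr1 (by linear_combination g2)
      rw [this] at k5
      norm_num at k5
    have k6 : lam * T = sm := by
      have := mul_left_cancel₀ hs (mul_right_cancel₀ hz
        (by linear_combination g1 : s * (sm - lam * T) * z = s * 0 * z))
      linarith
    have k7 : c = T * z := mul_left_cancel₀ hz (by
      linear_combination -1 / 2 * k3 + 1 / 2 * k1 - 1 / 2 * t2 + T / 2 * k2 - T / 2 * k4 - T * k5)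
    have k8 : r * T + S2 = 0 := mul_right_cancel₀ hz (by linear_combination g2 - r * k7)
    have k11 : sb = T * cb := by linear_combination k6 - hT
    have k9 : cb = lam := by
      have h3 : (cb - lam) * (cb + lam) * (1 + T ^ 2) = 0 := by
        rw [k11] at h1
        linear_combination h1 - (lam * T + sm) * k6 - l4
      rcases mul_eq_zero.1 h3 with h | h
      · rcases mul_eq_zero.1 h with h | h <;> linarith
      · exact absurd h (by positivity)
    have k10 : sb = sm := by rw [k11, k9]; linarith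
    rw [hr2, hS2, k9, k10] at k8
    have k12 : 2 * sm = 0 := by
      linear_combination lam * k8 - (2 * sm ^ 2 - lam * ξ) * k6 - 2 * sm * l4
    linarith
  · obtain ⟨hc, T, S, S2, hT, -, -, f0, -⟩ := forms h0 hσ a1 a2 a3 a4 h1 h2 hr hr1 hκ hm
    have k1 : sb = 0 := by
      rw [hm] at hz
      have h3 : ξ * sb = 0 := ofReal_eq_zero.1 hz
      exact (mul_eq_zero.1 h3).resolve_left (by linarith)
    have k2 : cb = 1 := by
      have h3 : (cb - 1) * (cb + 1) = 0 := by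
        rw [k1] at h1
        linear_combination h1
      rcases mul_eq_zero.1 h3 with h | h <;> linarith
    have k3 : T * (lam + 1) = sm := by
      rw [k1, k2] at hT
      linarith
    have k4 : s * T ≠ 0 := mul_ne_zero hs fun h => by
      rw [h] at k3
      linarith
    have k5 : ((s * T : ℝ) : ℂ) ≠ 0 := by exact_mod_cast k4
    have k6 : (T : ℂ) * (lam + 1) = sm := by exact_mod_cast k3
    unfold bG2
    rw [f0, hκ]
    refine ⟨k5, fun h => k5 ?_⟩
    push_cast at h ⊢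
    linear_combination h + s * k6

end Pool.Agent.MP_1ba41f_an.S2.W
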