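import Pool.Agent.MP_1ba41f_an.S2.W.SpecK

/-! Elementary facts on the family of circles (general mass ratio). -/

noncomputable section
open Set Complex

namespace Pool.Agent.MP_1ba41f_an.S2.W

variable [Lam]

namespace Fam0

theorem he_arg : 0 < (1 + lam) ^ 2 - (6 / 5 * lam) ^ 2 := by
  have := lam_pos; have := lam_le; nlinarith

theorem he_sq : He ^ 2 = (1 + lam) ^ 2 - (6 / 5 * lam) ^ 2 := Real.sq_sqrt he_arg.le

omit [Lam] in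
theorem sq_real {D : ℝ} (h : 0 ≤ D) : sq (D : ℂ) = (√D : ℝ) := by
  rw [sq, Real.sqrt_eq_rpow, ofReal_cpow h]
  norm_num

theorem ident {M : ℝ} (hM : M ≠ 0) (H x : ℝ) :
    (4 - fD M H - (M - lam + H * x) ^ 2) * ((M - lam + H * x + 2 * lam) ^ 2 + fD M H) -
      (fN M H * (M ^ 2 - H ^ 2) + 4 - (2 - lam ^ 2 - fD M H) ^ 2) =
      H ^ 2 * (1 - x ^ 2) * fq M H x := by
  unfold fq fN fD
  field_simp
  ring

omit [Lam] in
theorem poly_K {l t u B : ℝ} (l0 : 0 < l) (l1 : l ≤ 3 / 5) (t0 : 0 ≤ t) (t1 : t ≤ l ^ 2 / 100)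
    (u0 : 0 ≤ u) (u2 : u ≤ 2 * l * (1 + 2 * t)) (B0 : 0 ≤ B)
    (hB : B ≤ (1 + l) ^ 2 - (6 / 5 * l) ^ 2) :
    l ^ 2 ≤ B * (4 * l ^ 2 - 4 * (1 - t) ^ 2) + 8 * l * (1 - t) + 4 + 4 * l ^ 2 * (1 - t) ^ 2 -
      (u + 2 * l ^ 2) ^ 2 := by
  have l2 : l ^ 2 ≤ 9 / 25 := by nlinarith
  have l3 : 0 < l ^ 2 := by positivity
  have t2 : t ≤ 1 / 100 := by linarith
  have a1 : (1 - t) ^ 2 ≤ 1 := by nlinarith
  have a2 : 1 - 2 * t ≤ (1 - t) ^ 2 := by nlinarith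
  have b1 : (u + 2 * l ^ 2) ^ 2 ≤ (2 * l * (1 + l + 2 * t)) ^ 2 :=
    pow_le_pow_left₀ (by positivity) (by linarith) 2
  have b2 : (1 + l + 2 * t) ^ 2 ≤ (1 + l) ^ 2 + 7 * t := by nlinarith
  have b3 : (2 * l * (1 + l + 2 * t)) ^ 2 ≤ 4 * l ^ 2 * ((1 + l) ^ 2 + 7 * t) := by
    rw [mul_pow, mul_pow]
    nlinarith [mul_le_mul_of_nonneg_left b2 l3.le]
  have c1 : B * (4 * l ^ 2 - 4) ≤ B * (4 * l ^ 2 - 4 * (1 - t) ^ 2) :=
    mul_le_mul_of_nonneg_left (by linarith) B0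
  have c2 : ((1 + l) ^ 2 - (6 / 5 * l) ^ 2) * (4 * l ^ 2 - 4) ≤ B * (4 * l ^ 2 - 4) :=
    mul_le_mul_of_nonpos_right hB (by linarith)
  have c3 : l ^ 2 * (1 - 2 * t) ≤ l ^ 2 * (1 - t) ^ 2 := mul_le_mul_of_nonneg_left a2 l3.le
  have d1 : l * t ≤ 3 / 5 * t := mul_le_mul_of_nonneg_right l1 t0
  have d2 : l ^ 2 * t ≤ 9 / 25 * t := mul_le_mul_of_nonneg_right l2 t0
  have d3 : l ^ 2 * l ^ 2 ≤ 9 / 25 * l ^ 2 := mul_le_mul_of_nonneg_right l2 l3.le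
  nlinarith

theorem bounds {M H : ℝ} (hM : M ∈ Icc (1 - dl) 1) (hH : H ∈ Icc 0 He) :
    H ≤ 1 + lam - 9 / 20 * lam ^ 2 ∧ (6 / 5 * lam) ^ 2 ≤ fD M H ∧
    lam ^ 2 ≤ fN M H * (M ^ 2 - H ^ 2) + 4 - (2 - lam ^ 2 - fD M H) ^ 2 ∧
    ∀ x ∈ Icc (-1 : ℝ) 1, lam ^ 2 ≤ fq M H x ∧ 0 < 4 - fD M H - (M - lam + H * x) ^ 2 := by
  obtain ⟨m1, m2⟩ := hM
  obtain ⟨h0, h1⟩ := hH
  have l0 := lam_pos
  have l1 := lam_le
  have l2 : lam ^ 2 ≤ 9 / 25 := by nlinarith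
  have l3 : 0 < lam ^ 2 := by positivity
  have hh : H ^ 2 ≤ (1 + lam) ^ 2 - (6 / 5 * lam) ^ 2 := he_sq ▸ pow_le_pow_left₀ h0 h1 2
  have h2 : H ≤ 1 + lam - 9 / 20 * lam ^ 2 := by
    refine abs_le_of_sq_le_sq' (hh.trans ?_) (by linarith) |>.2
    nlinarith [mul_le_mul_of_nonneg_right l1 l3.le, sq_nonneg (lam ^ 2)]
  obtain ⟨t, rfl⟩ : ∃ t, M = 1 - t := ⟨1 - M, by ring⟩
  have t0 : 0 ≤ t := by linarith
  have t1 : t ≤ lam ^ 2 / 100 := by unfold dl at m1; linarith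
  have t2 : t ≤ 1 / 100 := by linarith
  obtain ⟨u, hu, u0, u1, u2⟩ : ∃ u, u = 2 * lam / (1 - t) ∧ u * (1 - t) = 2 * lam ∧
      2 * lam ≤ u ∧ u ≤ 2 * lam * (1 + 2 * t) := by
    refine ⟨_, rfl, div_mul_cancel₀ _ (by linarith), ?_, ?_⟩
    · rw [le_div_iff₀ (by linarith)]; nlinarith
    · rw [div_le_iff₀ (by linarith)]
      nlinarith [mul_nonneg (mul_nonneg l0.le t0) (by linarith : 0 ≤ 1 - 2 * t)]
  have eD : fD (1 - t) H = 2 + lam ^ 2 + u - (1 - t) ^ 2 - H ^ 2 := by rw [hu, fD]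
  have eN : fN (1 - t) H = 2 * u + (1 - t) ^ 2 - H ^ 2 := by rw [hu, fN]; ring
  have a1 : (1 - t) ^ 2 ≤ 1 := by nlinarith
  have d1 : lam * t ≤ 3 / 5 * t := mul_le_mul_of_nonneg_right l1 t0
  refine ⟨h2, by rw [eD]; nlinarith, ?_, fun x hx => ⟨?_, ?_⟩⟩
  · have e : fN (1 - t) H * ((1 - t) ^ 2 - H ^ 2) + 4 - (2 - lam ^ 2 - fD (1 - t) H) ^ 2 =
        H ^ 2 * (4 * lam ^ 2 - 4 * (1 - t) ^ 2) + 8 * lam * (1 - t) + 4 +
          4 * lam ^ 2 * (1 - t) ^ 2 - (u + 2 * lam ^ 2) ^ 2 := by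
      rw [eD, eN]; linear_combination 4 * (1 - t) * u0
    rw [e]
    exact poly_K l0 l1 t0 t1 (by linarith) u2 (sq_nonneg H) hh
  · have x1 : -H ≤ H * x := by linarith [mul_le_mul_of_nonneg_left hx.1 h0]
    have b1 : (2 * (1 - t) - H) ^ 2 ≤ (2 * (1 - t) + H * x) ^ 2 :=
      pow_le_pow_left₀ (by linarith) (by linarith) 2
    have e : fq (1 - t) H x = (2 * (1 - t) + H * x) ^ 2 + 2 * u - H ^ 2 := by
      rw [fq, eN]; ring
    rw [e]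
    nlinarith [mul_nonneg t0 h0, sq_nonneg t]
  · have b1 := mul_nonneg (mul_nonneg (by linarith : 0 ≤ 1 - t - lam) h0) (sub_nonneg.2 hx.2)
    have b2 := mul_nonneg (sq_nonneg H) (by nlinarith [hx.1, hx.2] : 0 ≤ 1 - x ^ 2)
    have b3 := mul_le_mul_of_nonneg_left h2 (by linarith : 0 ≤ 1 - lam)
    have b4 := mul_le_mul_of_nonneg_right l1 l3.le
    have b5 := mul_nonneg t0 h0
    rw [eD]
    nlinarith

theorem point {k r P η D : ℝ} (hk : lam / 2 ≤ k) (hr : 0 < r) (hD : 0 < D)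
    (e1 : 2 * r = 4 - D - η ^ 2)
    (e2 : 4 * P ^ 2 + 4 * k ^ 2 = 2 * r * ((η + 2 * lam) ^ 2 + D)) :
    bEta k (r2c (r, P)) = η ∧ bD k (r2c (r, P)) = D ∧ OkM k (r2c (r, P)) := by
  have l0 := lam_pos
  have l1 := lam_le
  have k0 : 0 < k := by linarith
  have m1 : (r2c (r, P)).1 = r := rfl
  have m2 : (r2c (r, P)).2 = P := rfl
  have hE : bEta k (r2c (r, P)) = η := by
    have : (P ^ 2 + k ^ 2 + r ^ 2 - 2 * (1 + lam ^ 2) * r) / (2 * lam * r) = η := by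
      rw [div_eq_iff (by positivity)]
      linear_combination (1 / 4 : ℝ) * e2 + r / 2 * e1
    rw [bEta, m1, m2, ← this]
    push_cast
    rfl
  have hb : bD k (r2c (r, P)) = D := by
    rw [bD, hE, m1]
    exact_mod_cast (by linarith : 4 - 2 * r - η ^ 2 = D)
  have hL0 : 0 < (η + 2 * lam) ^ 2 + D := by positivity
  have hL : bL k (r2c (r, P)) = ((η + 2 * lam) ^ 2 + D : ℝ) := by
    rw [bL, bxi, hE, hb]; push_cast; rfl
  refine ⟨hE, hb, by rw [m1]; exact_mod_cast hr.ne', by rw [hb, ofReal_re]; linarith,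
    by rw [hL]; exact_mod_cast hL0.ne', ?_, ?_, fun σ hσ => ?_⟩
  · rw [m2]
    exact_mod_cast (by positivity : k ^ 2 + P ^ 2 ≠ 0)
  · have : D + ((r - 2 * (1 - lam) + (1 - lam) * η) / (1 + lam)) ^ 2 ≠ 0 := by positivity
    rw [hb, bK, hE, m1]
    exact_mod_cast this
  · obtain ⟨G, hG, eG⟩ : ∃ G : ℝ, bG σ k (r2c (r, P)) = G ∧
        G * ((η + 2 * lam) ^ 2 + D) = 2 * (k * (η + 2 * lam) + σ * √D * P) :=
      ⟨2 * (k * (η + 2 * lam) + σ * √D * P) / ((η + 2 * lam) ^ 2 + D), by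
        rw [bG, hL, bxi, bs, hE, hb, m2, sq_real hD.le]; push_cast; rfl,
        div_mul_cancel₀ _ hL0.ne'⟩
    have s2 : (σ * √D) ^ 2 = D := by
      rcases hσ with rfl | rfl <;> simp [Real.sq_sqrt hD.le]
    have hG2 : G ^ 2 ≤ 2 * r := by
      refine le_of_mul_le_mul_right ?_ (pow_pos hL0 2)
      have e : 2 * r * ((η + 2 * lam) ^ 2 + D) ^ 2 - G ^ 2 * ((η + 2 * lam) ^ 2 + D) ^ 2 =
          4 * (k * (σ * √D) - P * (η + 2 * lam)) ^ 2 := by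
        linear_combination (-((η + 2 * lam) ^ 2 + D)) * e2 - 4 * (k ^ 2 + P ^ 2) * s2 -
          (G * ((η + 2 * lam) ^ 2 + D) + 2 * (k * (η + 2 * lam) + σ * √D * P)) * eG
      linarith [sq_nonneg (k * (σ * √D) - P * (η + 2 * lam))]
    have n1 : G ^ 2 + D ≠ 0 := by positivity
    have n2 : 1 - (2 - G ^ 2 - D) / 2 ≠ 0 := fun h => n1 (by linarith)
    have hG3 : G ≤ 2 := (abs_le_of_sq_le_sq' (by linarith [sq_nonneg η]) (by norm_num)).2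
    have n3 : 1 + (k - lam * G) ≠ 0 := fun h => by
      linarith [mul_le_mul_of_nonneg_left hG3 l0.le]
    rw [bX, bG2, hG, hb]
    exact ⟨by exact_mod_cast n2, by exact_mod_cast n1, by exact_mod_cast n3⟩

end Fam0

open Fam0

theorem fam0S (_hB : AlgBStmt) : Fam0Stmt := by
  have l0 := lam_pos
  have l1 := lam_le
  have l2 : lam ^ 2 ≤ 9 / 25 := by nlinarith
  have l3 : 0 < lam ^ 2 := by positivity
  refine ⟨fun x hx => ContinuousAt.continuousWithinAt ?_, Real.sqrt_pos.2 he_arg, he_sq,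
    fun M hM H hH => ?_⟩
  · have h : x.1 ≠ 0 := by linarith [hx.1.1, dl_le]
    unfold fK fx fq fN fD
    fun_prop (disch := assumption)
  obtain ⟨b0, b1, b2, b3⟩ := bounds hM hH
  have b1' : 36 / 25 * lam ^ 2 ≤ fD M H := by linarith [b1, (by ring : (6 / 5 * lam) ^ 2 = 36 / 25 * lam ^ 2)]
  have hK : 4 * fK M H ^ 2 = fN M H * (M ^ 2 - H ^ 2) + 4 - (2 - lam ^ 2 - fD M H) ^ 2 := by
    rw [fK, Real.sq_sqrt (by linarith)]; ring
  have hK0 : 0 ≤ fK M H := Real.sqrt_nonneg _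
  have hK1 : lam / 2 ≤ fK M H := Real.le_sqrt_of_sq_le (by linarith [div_pow lam 2 2])
  refine ⟨by linarith, hK, by linarith, fun x hx => (b3 x hx).1, fun φ => ?_⟩
  obtain ⟨c1, c2⟩ := b3 (Real.cos φ) ⟨Real.neg_one_le_cos φ, Real.cos_le_one φ⟩
  have hr : 0 < (fx M H φ).1 := half_pos c2
  have e1 : 2 * (fx M H φ).1 = 4 - fD M H - (M - lam + H * Real.cos φ) ^ 2 := by
    simp only [fx]; ring
  have e2 : 4 * (fx M H φ).2 ^ 2 + 4 * fK M H ^ 2 =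
      2 * (fx M H φ).1 * ((M - lam + H * Real.cos φ + 2 * lam) ^ 2 + fD M H) := by
    have i := ident (by linarith [hM.1, dl_le] : M ≠ 0) H (Real.cos φ)
    have q := Real.sq_sqrt (by linarith : 0 ≤ fq M H (Real.cos φ))
    rw [e1, hK]
    simp only [fx]
    linear_combination -i + H ^ 2 * Real.sin φ ^ 2 * q +
      H ^ 2 * fq M H (Real.cos φ) * Real.sin_sq_add_cos_sq φ
  obtain ⟨p1, p2, p3⟩ := point hK1 hr (by linarith : 0 < fD M H) e1 e2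
  refine ⟨hr, p1, p2, p3, ?_⟩
  rintro rfl
  have eD : fD 1 H = (1 + lam) ^ 2 - H ^ 2 := by rw [fD]; ring
  have s2 : √(fD 1 H) ^ 2 = fD 1 H := Real.sq_sqrt (by linarith)
  have s0 : 0 ≤ √(fD 1 H) := Real.sqrt_nonneg _
  have k2 : 4 * fK 1 H ^ 2 = 4 * (1 - lam ^ 2) * fD 1 H := by rw [hK, eD, fN]; ring
  have k1 : fK 1 H = sm * √(fD 1 H) := by
    have := sm_ge
    refine (pow_left_inj₀ hK0 (by positivity) two_ne_zero).1 ?_
    rw [mul_pow, s2, sm_sq]; linarith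
  have x1 : -H ≤ H * Real.cos φ := by
    linarith [mul_le_mul_of_nonneg_left (Real.neg_one_le_cos φ) hH.1]
  have x2 : H * Real.cos φ ≤ H := by
    linarith [mul_le_mul_of_nonneg_left (Real.cos_le_one φ) hH.1]
  obtain ⟨ξ, hξ⟩ : ∃ ξ, ξ = 1 - lam + H * Real.cos φ + 2 * lam := ⟨_, rfl⟩
  have ξ0 : ξ ≠ 0 := (by linarith : 0 < ξ).ne'
  have e3 : 1 - lam + H * Real.cos φ = ξ - 2 * lam := by linarith
  rw [← hξ] at e2
  rw [e3] at e1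
  refine ⟨√(fD 1 H), ξ, (fx 1 H φ).2 / ξ, (ξ ^ 2 + fD 1 H) / (2 * ξ) - lam,
    Real.le_sqrt_of_sq_le b1, Real.sqrt_le_iff.2 ⟨by linarith, by linarith [sq_nonneg H]⟩,
    by unfold cl; linarith, by linarith, ?_, ?_, ?_⟩
  · field_simp
    linear_combination e2 + (ξ ^ 2 + fD 1 H) * e1 - k2
  · rw [s2]; field_simp; ring
  · rw [k1, s2, ← e1, mul_div_cancel₀ _ ξ0, mul_div_cancel_left₀ _ two_ne_zero]

end Pool.Agent.MP_1ba41f_an.S2.W
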