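import Pool.Agent.MP_1ba41f_an.S2.W.SpecK
import Pool.Agent.MP_1ba41f_an.S2.FL.Base
import Pool.Agent.MP_1ba41f_an.S2.FL.Soft
import Pool.Agent.MP_1ba41f_an.S2.OD.All

/-! The letters of the true problem, from the unperturbed arcs and the half arcs. -/

noncomputable section
open Set Complex Metric

namespace Pool.Agent.MP_1ba41f_an.S2.W

variable [Lam]

namespace Out

def YY (x : ℂ × ℂ × Az) : ℂ × ℂ × Az := (0, 0, X0 x.1 x.2.1 x.2.2)
def UU : Set (ℂ × ℂ × Az) := {x | nn x.2.2 ≠ 0}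

omit [Lam] in
theorem isFlow : IsFlow YY UU (flowDom YY UU) (flow YY UU) := by
  refine isFlow_flow flowT (isOpen_ne_fun (by unfold nn rr2 rr3; fun_prop) continuous_const) ?_
  intro x hx
  refine DifferentiableAt.differentiableWithinAt ?_
  have h1 : DifferentiableAt ℂ (fun x : ℂ × ℂ × Az => (2 * nn x.2.2)⁻¹) x :=
    DifferentiableAt.fun_inv (by unfold nn rr2 rr3; fun_prop) (mul_ne_zero two_ne_zero hx)
  have h2 : DifferentiableAt ℂ (fun x : ℂ × ℂ × Az => (nn x.2.2)⁻¹) x :=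
    DifferentiableAt.fun_inv (by unfold nn rr2 rr3; fun_prop) hx
  refine (differentiableAt_const _).prodMk ((differentiableAt_const _).prodMk
    (differentiableAt_pi.2 fun i => ?_))
  fin_cases i <;> simp only [X0, div_eq_mul_inv] <;>
    first
    | exact DifferentiableAt.fun_mul (by unfold rr3; fun_prop) h1
    | exact DifferentiableAt.fun_mul (by unfold rr2; fun_prop) h1
    | exact DifferentiableAt.fun_mul (by unfold rr2 rr3; fun_prop) h2

/-- the start of the base arc -/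
def st (k : ℝ × Xi × ℂ) : (ℂ × ℂ × Az) × ℂ :=
  ((kk2 (coll k.1 k.2.1), kk3 (coll k.1 k.2.1), coll k.1 k.2.1), k.2.2)

omit [Lam] in
theorem base_end {a : ℝ} {x : Xi} {T : ℂ} {g : ℝ → Az} (h : BaseArc a x T g) :
    st (a, x, T) ∈ flowDom YY UU ∧ (flow YY UU (st (a, x, T))).2.2 = g 1 := by
  have := isFlow.max T (fun u => (kk2 (coll a x), kk3 (coll a x), g u)) fun u hu =>
    ⟨(h.2 u hu).1, by
      simpa [YY] using (hasDerivWithinAt_const u _ (kk2 (coll a x))).prodMk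
        ((hasDerivWithinAt_const u _ (kk3 (coll a x))).prodMk (h.2 u hu).2.2)⟩
  rw [h.1] at this
  exact ⟨this.1, congrArg (fun y => y.2.2) this.2⟩

omit [Lam] in
theorem nu_diff {n : ℕ} {t : ℂ} (h : 0 < ((n : ℂ) + t).re) :
    DifferentiableAt ℂ (nu n) t ∧ DifferentiableAt ℂ (fun t => 1 / nu n t ^ 2) t := by
  have h1 : DifferentiableAt ℂ (nu n) t :=
    DifferentiableAt.cpow_const (by fun_prop) (Or.inl h)
  refine ⟨h1, (differentiableAt_const _).div (h1.pow 2) (pow_ne_zero _ fun h0 => ?_)⟩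
  rw [nu, cpow_eq_zero_iff] at h0
  simp [h0.1] at h

def W0 (n : ℕ) : Set Vv := {v | 0 < ((n : ℂ) + v.2.1.1).re ∧ 0 < ((n : ℂ) + v.2.1.2).re}

omit [Lam] in
theorem W0_open (n : ℕ) : IsOpen (W0 n) := by
  have h1 : IsOpen {v : Vv | 0 < ((n : ℂ) + v.2.1.1).re} := isOpen_lt continuous_const (by fun_prop)
  have h2 : IsOpen {v : Vv | 0 < ((n : ℂ) + v.2.1.2).re} := isOpen_lt continuous_const (by fun_prop)
  exact h1.inter h2

theorem yN_diff (a : ℝ) (n : ℕ) : DifferentiableOn ℂ (yN a n) (W0 n) := fun v hv => by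
  refine (differentiableAt_pi.2 fun i => ?_).differentiableWithinAt
  fin_cases i
  · show DifferentiableAt ℂ (fun v : Vv => (a0 : ℂ) * v.1.1) v
    fun_prop
  · show DifferentiableAt ℂ (fun v : Vv => hn a n + v.2.2.1) v
    fun_prop
  · show DifferentiableAt ℂ (fun v : Vv => v.1.2.1) v
    fun_prop
  · show DifferentiableAt ℂ (fun v : Vv => (a0 : ℂ) * v.1.2.2) v
    fun_prop
  · exact (nu_diff hv.1).2.comp v (f := fun v : Vv => v.2.1.1) (by fun_prop)
  · exact (nu_diff hv.2).2.comp v (f := fun v : Vv => v.2.1.2) (by fun_prop)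

theorem yN_cont (n : ℕ) : ContinuousOn (fun x : ℝ × Vv => yN x.1 n x.2) (univ ×ˢ W0 n) := by
  have : (fun x : ℝ × Vv => yN x.1 n x.2) =
      fun x => yN 0 n x.2 + (hn x.1 n - hn 0 n) • Pi.single 1 1 := by
    funext x i
    fin_cases i <;> simp [yN]
    ring
  rw [this]
  refine ((yN_diff 0 n).continuousOn.comp continuousOn_snd fun _ h => h.2).add ?_
  unfold hn
  fun_prop

def W1 (n : ℕ) (j : Fin 3) : Set Vv :=
  (W0 n ∩ {v | OkM v.1.1 v.1.2}) ∩
    (fun v : Vv => (v.1.1, PP (sg j) v.1.1 v.1.2)) ⁻¹' {x | OkZ x.1 x.2}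

omit [Lam] in
theorem sgc (j : Fin 3) : sg j = 1 ∨ sg j = -1 := by
  unfold sg; split_ifs <;> simp

theorem TN_diff (hA : AnaStmt) (n : ℕ) (j : Fin 3) :
    IsOpen (W1 n j) ∧ DifferentiableOn ℂ (TN n j) (W1 n j) := by
  obtain ⟨⟨o1, a1⟩, ⟨o2, -, a2⟩, -⟩ := hA
  obtain ⟨b1, b2⟩ := a1 _ (sgc j)
  have p1 : DifferentiableOn ℂ (fun v : Vv => (v.1.1, PP (sg j) v.1.1 v.1.2))
      (W0 n ∩ {v | OkM v.1.1 v.1.2}) := by
    have := b1.comp (s := W0 n ∩ {v | OkM v.1.1 v.1.2}) differentiableOn_fst fun _ h => h.2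
    exact DifferentiableOn.prodMk (by fun_prop) (by simpa only [Function.comp_def] using this)
  refine ⟨p1.continuousOn.isOpen_inter_preimage
    ((W0_open n).inter (o1.preimage continuous_fst)) o2, ?_⟩
  have p2 : DifferentiableOn ℂ (fun v : Vv => gj j v.1.1 (PP (sg j) v.1.1 v.1.2)) (W1 n j) := by
    have := (a2 j).fst.comp (s := W1 n j) (p1.mono inter_subset_left) fun _ h => h.2
    simpa only [Function.comp_def] using this
  have p3 : DifferentiableOn ℂ (fun v : Vv => nu n v.2.1.1) (W1 n j) := fun v hv =>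
    ((nu_diff hv.1.1.1).1.comp v (f := fun v : Vv => v.2.1.1) (by fun_prop)).differentiableWithinAt
  have p4 : DifferentiableOn ℂ (fun v : Vv => bS (sg j) v.1.1 v.1.2) (W1 n j) := by
    have := b2.fst.comp (s := W1 n j) differentiableOn_fst fun _ h => h.1.2
    simpa only [Function.comp_def] using this
  have p5 : DifferentiableOn ℂ (fun v : Vv => v.2.2.2) (W1 n j) := by fun_prop
  unfold TN
  exact (((p2.const_add _).fun_add (p3.const_mul _)).fun_sub p4).fun_add p5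

theorem DV_compact (h0 : BaseStmt) (d R rH : ℝ) : IsCompact (DV d R rH) := by
  have : DV d R rH = cthickening d B1 ×ˢ (closedBall 0 R ×ˢ closedBall 0 R) ×ˢ
      closedBall 0 rH ×ˢ closedBall 0 d := by
    ext v
    simp [DV, and_assoc]
  rw [this]
  exact h0.1.cthickening.prod (((isCompact_closedBall _ _).prod (isCompact_closedBall _ _)).prod
    ((isCompact_closedBall _ _).prod (isCompact_closedBall _ _)))

theorem DV_W0 {d R rH : ℝ} {n : ℕ} (hn : 2 * R < n) : DV d R rH ⊆ W0 n := fun v hv => by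
  have h1 := abs_le.1 ((abs_re_le_norm _).trans hv.2.1)
  have h2 := abs_le.1 ((abs_re_le_norm _).trans hv.2.2.1)
  constructor <;> simp only [add_re, natCast_re] <;> linarith [h1.1, h1.2, h2.1]

end Out

open Out in
theorem outS (h0 : BaseStmt) (hH : HalfStmt) (hK : KepStmt) (hA : AnaStmt) : OutStmt := by
  obtain ⟨s1, c0, c1, hs1, hc0, hc1, hK⟩ := hK
  refine ⟨s1, c0, c1, hs1, hc0, hc1, fun sa e1 hsa he1 => ?_⟩
  obtain ⟨d, B, hd, hB, hK⟩ := hK sa e1 hsa he1
  refine ⟨d, B + 1, hd, by positivity, fun R μ hR hμ => ?_⟩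
  obtain ⟨n, rH, da, hn', hrH, hda, hK⟩ := hK R (μ / 2) hR (by positivity)
  set A : Set (ℝ × Vv) := closedBall a0 da ×ˢ DV d R rH with hAdef
  have cA : IsCompact A := (isCompact_closedBall _ _).prod (DV_compact h0 d R rH)
  have kA := fun (x : ℝ × Vv) (hx : x ∈ A) (j : Fin 3) => hK x.1 hx.1 j x.2 hx.2
  have mW : ∀ j, ∀ x ∈ A, x.2 ∈ W1 n j := fun j x hx =>
    ⟨⟨DV_W0 hn' hx.2, (kA x hx j).2.1⟩, (kA x hx j).2.2.1⟩
  have hT := TN_diff hA n
  obtain ⟨-, -, ⟨o3, a3⟩, a4⟩ := hA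
  have cy : ContinuousOn (fun x : ℝ × Vv => (x.1, yN x.1 n x.2)) A :=
    continuousOn_fst.prodMk ((yN_cont n).mono fun x hx => ⟨trivial, DV_W0 hn' hx.2⟩)
  have cx := fun j => (a3 _ (sgc j)).1.comp cy fun x hx => (kA x hx j).1
  have cT : ∀ j, ContinuousOn (fun x : ℝ × Vv => TN n j x.2) A := fun j =>
    (hT j).2.continuousOn.comp continuousOn_snd (mW j)
  set k : Fin 3 → ℝ × Vv → ℝ × Xi × ℂ := fun j x => (x.1, xiN x.1 n j x.2, TN n j x.2) with hk
  have ck : ∀ j, ContinuousOn (k j) A := fun j =>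
    continuousOn_fst.prodMk ((cx j).fst.prodMk (cT j))
  have adm : ∀ j, ∀ x ∈ A, Adm (k j x) := fun j x hx => (kA x hx j).2.2.2.2.2.1
  have cc : ∀ j, ContinuousOn (fun x : ℝ × Vv => coll x.1 (xiN x.1 n j x.2)) A := fun j =>
    (cx j).snd.fst
  have ci := fun j (i : Fin 9) => continuousOn_pi.1 (cc j) i
  have cs : ∀ j, ContinuousOn (fun x => st (k j x)) A := fun j =>
    (((continuousOn_const.sub ((ci j 2).mul (ci j 3))).div ((ci j 0).mul (ci j 1))
      fun x hx => (FL.Base.energy (adm j x hx)).1).prodMk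
      (((continuousOn_const.sub ((ci j 6).mul (ci j 7))).div ((ci j 4).mul (ci j 5))
        fun x hx => (FL.Base.energy (adm j x hx)).2.1).prodMk (cc j))).prodMk (cT j)
  have ce : ∀ j, ContinuousOn
      (fun x : ℝ × Vv => (x.1, x.2.1.1, (flow YY UU (st (k j x))).2.2)) A := fun j =>
    continuousOn_fst.prodMk (ContinuousOn.prodMk (by fun_prop)
      (isFlow.hol.continuousOn.comp (cs j) fun x hx => by
        obtain ⟨g, hg⟩ := (adm j x hx).2.2.2.2.2.2.2.2
        exact (base_end hg).1).snd.snd)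
  set ε := min (μ / 2 * min 1 rH) 1 with hε
  have ε1 : ε ≤ μ / 2 := (min_le_left _ _).trans
    (mul_le_of_le_one_right (by positivity) (min_le_left _ _))
  have ε2 : ε ≤ μ / 2 * rH := (min_le_left _ _).trans (by gcongr; exact min_le_right _ _)
  have ε3 : ε ≤ 1 := min_le_right _ _
  have su := fun j => soft_unif (cA.image_of_continuousOn (ce j))
    (V := {x : ℝ × ℂ × Az | OkA j x.2.1 x.2.2}) ((a4 j).1.preimage continuous_snd)
    (by
      rintro _ ⟨x, hx, rfl⟩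
      obtain ⟨g, hg⟩ := (adm j x hx).2.2.2.2.2.2.2.2
      show OkA j x.2.1.1 (flow YY UU (st (k j x))).2.2
      rw [(base_end hg).2]
      exact ((kA x hx j).2.2.2.2.2.2 g hg).1.1) (a4 j).2.1 (η := ε) (by positivity)
  choose δ δ0 _ hδ using su
  obtain ⟨η, η0, ηδ, ημ, ηe, η1, ηc⟩ : ∃ η : ℝ, 0 < η ∧ (∀ j, η ≤ δ j) ∧ η ≤ μ ∧ η ≤ e1 ∧
      η ≤ cl / 8 ∧ η < c1 := by
    have := cl_pos
    have := δ0 0
    have := δ0 1
    have := δ0 2
    refine ⟨min (min (min (δ 0) (δ 1)) (min (δ 2) μ)) (min (min e1 (cl / 8)) (c1 / 2)),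
      by positivity, fun j => ?_, ?_, ?_, ?_, ((min_le_right _ _).trans
        (min_le_right _ _)).trans_lt (half_lt_self hc1)⟩
    · fin_cases j <;> simp
    all_goals simp
  obtain ⟨e0, he0, hH⟩ := hH (⋃ j, k j '' A)
    (isCompact_iUnion fun j => cA.image_of_continuousOn (ck j))
    (by
      rintro _ ⟨_, ⟨j, rfl⟩, x, hx, rfl⟩
      exact adm j x hx) η η0
  have am := a0_mem
  refine ⟨n, rH, min da (1 - a0), e0, hrH, lt_min hda (sub_pos.2 am.2), he0, fun a e ha he he' => ?_⟩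
  obtain ⟨S, enc, arc, hf⟩ := hH e he he' a
  have ha1 : |a - a0| ≤ da := (ha.trans_le (min_le_left _ _)).le
  have ha2 := abs_lt.1 (ha.trans_le (min_le_right _ _))
  have mA : ∀ v ∈ DV d R rH, (a, v) ∈ A := fun v hv => ⟨ha1, hv⟩
  have mK : ∀ j, ∀ v ∈ DV d R rH, (xiN a n j v, TN n j v) ∈ {y | (a, y) ∈ ⋃ j, k j '' A} :=
    fun j v hv => mem_iUnion.2 ⟨j, (a, v), mA v hv, rfl⟩
  have close : ∀ j, ∀ v ∈ DV d R rH, ∀ g, BaseArc a (xiN a n j v) (TN n j v) g →
      OkA j v.1.1 (endN a n arc j v) ∧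
        ∀ i, ‖LL a j v.1.1 (endN a n arc j v) i - LL a j v.1.1 (g 1) i‖ ≤ ε := fun j v hv g hg => by
    have h1 := hf.near _ (mK j v hv) g hg 1 ⟨zero_le_one, le_rfl⟩
    rw [ofReal_one, one_mul] at h1
    have h2 := hδ j _ ⟨(a, v), mA v hv, rfl⟩ (a, v.1.1, endN a n arc j v) (by
      simp only [hk, (base_end hg).2, Prod.dist_eq, dist_self]
      exact max_le (δ0 j).le (max_le (δ0 j).le ((dist_eq_norm _ _).trans_le (h1.trans (ηδ j)))))
    simp only [hk, (base_end hg).2, dist_eq_norm] at h2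
    exact ⟨h2.1, fun i => (norm_le_pi_norm _ i).trans h2.2⟩
  refine ⟨η, S, _, enc, arc, ⟨by linarith [ha2.1, am.1], by linarith [ha2.2], η0, ημ, ηe, η1, ηc⟩, hn', hf,
    fun j => ?_, fun j v hv => ?_⟩
  · obtain ⟨U, V, -, oV, -, dV, mV⟩ := hf.hol
    have oX : IsOpen {y | OkX a y} := o3.preimage (f := fun y => (a, y)) (by fun_prop)
    have dy : DifferentiableOn ℂ (yN a n) (W1 n j) := (yN_diff a n).mono fun _ h => h.1.1
    have o2 := dy.continuousOn.isOpen_inter_preimage (hT j).1 oX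
    have d2 : DifferentiableOn ℂ (xiN a n j) (W1 n j ∩ yN a n ⁻¹' {y | OkX a y}) :=
      ((a3 _ (sgc j)).2 a).comp (dy.mono inter_subset_left) fun _ h => h.2
    have d3 := d2.prodMk ((hT j).2.mono inter_subset_left)
    have o3' := d3.continuousOn.isOpen_inter_preimage o2 oV
    have d4' := dV.comp (d3.mono (inter_subset_left (t := _ ⁻¹' V))) fun _ h => h.2
    have d4 := DifferentiableOn.prodMk (f₁ := fun v : Vv => v.1.1) (f₂ := endN a n arc j)
      (by fun_prop) d4'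
    have o4 := d4.continuousOn.isOpen_inter_preimage o3' (a4 j).1
    have d5 := ((a4 j).2.2 a).comp
      (d4.mono (inter_subset_left (t := _ ⁻¹' {x : ℂ × Az | OkA j x.1 x.2}))) fun _ h => h.2
    refine ⟨_, o4, fun v hv => ?_, d2.mono fun _ h => h.1.1, (hT j).2.mono fun _ h => h.1.1.1,
      by simpa only [Function.comp_def] using d5⟩
    obtain ⟨g, hg⟩ := (adm j _ (mA v hv)).2.2.2.2.2.2.2.2
    refine ⟨⟨⟨mW j _ (mA v hv), (kA _ (mA v hv) j).1⟩, ?_⟩, (close j v hv g hg).1⟩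
    simpa using (mV _ (mK j v hv)).2 1 ⟨zero_le_one, le_rfl⟩
  · obtain ⟨k1, k2, k3, k4, k5, k6, k7⟩ := hK a ha1 j v hv
    obtain ⟨g, hg⟩ := k6.2.2.2.2.2.2.2.2
    obtain ⟨⟨-, l0, l1, l2, l4, l5⟩, lr⟩ := k7 g hg
    obtain ⟨ok, cl⟩ := close j v hv g hg
    have c0' : ‖LL a j v.1.1 (endN a n arc j v) 0 - LH a (g 1)‖ ≤ ε := cl 0
    have c1' : ‖LL a j v.1.1 (endN a n arc j v) 1 - LK (g 1)‖ ≤ ε := cl 1
    have c2' : ‖UV (endN a n arc j v) - UV (g 1)‖ ≤ ε := max_le (cl 2) (cl 3)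
    rw [l0, ← sub_sub] at c0'
    rw [l1, ← sub_sub] at c1'
    refine ⟨mK j v hv, k1, k2, k3, k4, k5, ok, by nlinarith, by linarith,
      (norm_sub_le_norm_sub_add_norm_sub _ _ _).trans ((add_le_add c2' l2).trans (by linarith)),
      (norm_sub_le_norm_sub_add_norm_sub _ _ _).trans ((add_le_add (cl 4) l4).trans (by linarith)),
      (norm_sub_le_norm_sub_add_norm_sub _ _ _).trans ((add_le_add (cl 5) l5).trans (by linarith)),
      fun hr => ?_⟩
    obtain ⟨T, hT', r1, r2, r3, r4, r5, r6, r7⟩ := lr hr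
    exact ⟨T, g, hT', hT' ▸ hg, r1, r2, r3, r4, r5, by linarith, by linarith⟩

end Pool.Agent.MP_1ba41f_an.S2.W
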